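import Mathlib

/-!
# Deleting a row and a column of a symmetric matrix
-/

set_option autoImplicit false

open Finset Matrix

namespace Pool.Agent.Q266.WN

variable {V R : Type} [Fintype V] [DecidableEq V] [CommRing R]

/-- The row and the column `v` are replaced by those of the unit matrix. -/
def cut (v : V) (B : Matrix V V R) : Matrix V V R :=
  fun x y => if x = v ∨ y = v then (if x = y then 1 else 0) else B x y

theorem cut_mulVec_self (v : V) (B : Matrix V V R) (w : V → R) : (cut v B *ᵥ w) v = w v := by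
  simp only [mulVec, dotProduct, cut, true_or, if_true]
  rw [sum_eq_single v]
  · simp
  · intro b _ hb
    rw [if_neg (Ne.symm hb), zero_mul]
  · intro h
    exact absurd (mem_univ v) h

theorem cut_mulVec_ne (v : V) (B : Matrix V V R) (w : V → R) {x : V} (hx : x ≠ v) :
    (cut v B *ᵥ w) x = (B *ᵥ w) x - B x v * w v := by
  simp only [mulVec, dotProduct]
  rw [← sum_erase_add univ _ (mem_univ v), ← sum_erase_add univ (fun y => B x y * w y) (mem_univ v)]
  have h1 : cut v B x v = 0 := by
    simp [cut, hx]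
  rw [h1, zero_mul, add_zero, add_sub_cancel_right]
  refine sum_congr rfl fun y hy => ?_
  have hy' := ne_of_mem_erase hy
  simp [cut, hx, hy']

/-- the unit vector -/
def ev (v : V) : V → R := fun x => if x = v then 1 else 0

omit [Fintype V] in
@[simp] theorem ev_self (v : V) : (ev v : V → R) v = 1 := by simp [ev]

omit [Fintype V] in
theorem ev_ne {v x : V} (h : x ≠ v) : (ev v : V → R) x = 0 := by simp [ev, h]

theorem inj_of_det {B : Matrix V V R} (h : IsUnit B.det) {w w' : V → R} (hw : B *ᵥ w = B *ᵥ w') :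
    w = w' := by
  have h1 : B⁻¹ *ᵥ (B *ᵥ w) = B⁻¹ *ᵥ (B *ᵥ w') := by rw [hw]
  rwa [mulVec_mulVec, mulVec_mulVec, nonsing_inv_mul _ h, one_mulVec, one_mulVec] at h1

theorem cut_ev (v : V) (B : Matrix V V R) : cut v B *ᵥ ev v = ev v := by
  funext x
  by_cases hx : x = v
  · subst hx
    exact cut_mulVec_self _ _ _
  · rw [cut_mulVec_ne v B _ hx, ev_self, mul_one, ev_ne hx]
    simp only [mulVec, dotProduct, ev, mul_ite, mul_one, mul_zero, sum_ite_eq', mem_univ, if_true,
      sub_self]

/-- The solution of the linear equations of the cut matrix. -/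
theorem block {B : Matrix V V R} {v : V} (hdet : IsUnit (cut v B).det) {u r y : V → R}
    (hu : B *ᵥ u = fun _ => 1) (hr : B *ᵥ r = ev v) (hy : cut v B *ᵥ y = fun _ => 1) (x : V) :
    r v * u x - u v * r x = r v * (y x - ev v x) := by
  have key : cut v B *ᵥ (fun x => r v * u x - u v * r x) =
      cut v B *ᵥ (fun x => r v * (y x - ev v x)) := by
    funext x
    have h2 : (cut v B *ᵥ fun x => r v * (y x - ev v x)) x =
        r v * ((cut v B *ᵥ y) x - (cut v B *ᵥ ev v) x) := by
      simp only [mulVec, dotProduct, mul_sum, ← sum_sub_distrib]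
      exact sum_congr rfl fun z _ => by ring
    rw [h2, hy, cut_ev]
    have h3 : (B *ᵥ fun x => r v * u x - u v * r x) x =
        r v * (B *ᵥ u) x - u v * (B *ᵥ r) x := by
      simp only [mulVec, dotProduct, mul_sum, ← sum_sub_distrib]
      exact sum_congr rfl fun z _ => by ring
    by_cases hx : x = v
    · subst hx
      rw [cut_mulVec_self, ev_self]
      ring
    · rw [cut_mulVec_ne v B _ hx, h3, hu, hr, ev_ne hx]
      ring
  exact congrFun (inj_of_det hdet key) x

theorem sum_eq_of_symm {B : Matrix V V R} (hB : Bᵀ = B) {v : V} {u r : V → R}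
    (hu : B *ᵥ u = fun _ => 1) (hr : B *ᵥ r = ev v) : ∑ x, r x = u v := by
  have h1 : ∑ x, r x = (B *ᵥ u) ⬝ᵥ r := by
    rw [hu]
    simp [dotProduct]
  have h2 : (B *ᵥ u) ⬝ᵥ r = u ⬝ᵥ (B *ᵥ r) := by
    rw [dotProduct_mulVec, ← mulVec_transpose, hB]
  rw [h1, h2, hr]
  simp [dotProduct, ev]

/-- The sum of the entries of the inverse matrix. -/
theorem block_sum {B : Matrix V V R} (hB : Bᵀ = B) {v : V} (hdet : IsUnit (cut v B).det)
    {u r y : V → R} (hu : B *ᵥ u = fun _ => 1) (hr : B *ᵥ r = ev v)
    (hy : cut v B *ᵥ y = fun _ => 1) :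
    r v * (∑ x, u x - ∑ x, y x + 1) = u v ^ 2 := by
  have h1 : ∑ x, (r v * u x - u v * r x) = ∑ x, r v * (y x - ev v x) :=
    sum_congr rfl fun x _ => block hdet hu hr hy x
  rw [sum_sub_distrib, ← mul_sum, ← mul_sum, ← mul_sum, sum_sub_distrib,
    sum_eq_of_symm hB hu hr] at h1
  have h2 : ∑ x, (ev v : V → R) x = 1 := by simp [ev]
  rw [h2] at h1
  linear_combination h1

/-- The entry of the solution at the cut vertex. -/
theorem block_entry {B : Matrix V V R} {v : V} (hdet : IsUnit (cut v B).det)
    {u r y : V → R} (hu : B *ᵥ u = fun _ => 1) (hr : B *ᵥ r = ev v)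
    (hy : cut v B *ᵥ y = fun _ => 1) :
    u v = r v * (1 - ∑ x ∈ univ.erase v, B v x * y x) := by
  have h1 : r v * (B *ᵥ u) v - u v * (B *ᵥ r) v =
      ∑ x, B v x * (r v * u x - u v * r x) := by
    simp only [mulVec, dotProduct, mul_sum, ← sum_sub_distrib]
    exact sum_congr rfl fun z _ => by ring
  rw [hu, hr, ev_self, sum_congr rfl fun x _ => by rw [block hdet hu hr hy x],
    ← sum_erase_add univ _ (mem_univ v), ev_self] at h1
  have h3 : y v = 1 := by
    have := congrFun hy v
    rwa [cut_mulVec_self] at this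
  have h2 : ∑ x ∈ univ.erase v, B v x * (r v * (y x - ev v x)) =
      r v * ∑ x ∈ univ.erase v, B v x * y x := by
    rw [mul_sum]
    refine sum_congr rfl fun x hx => ?_
    rw [ev_ne (ne_of_mem_erase hx)]
    ring
  rw [h2, h3] at h1
  linear_combination -h1

/-- The diagonal entry of the inverse matrix. -/
theorem block_det {B : Matrix V V R} {v : V} (hdet : IsUnit B.det) {r : V → R}
    (hr : B *ᵥ r = ev v) : r v * B.det = (cut v B).det := by
  have h0 : B⁻¹ *ᵥ ev v = r := by
    rw [← hr, mulVec_mulVec, nonsing_inv_mul _ hdet, one_mulVec]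
  have h1 : r v = B⁻¹ v v := by
    rw [← h0]
    simp [mulVec, dotProduct, ev]
  have h2 : B⁻¹ v v * B.det = B.adjugate v v := by
    rw [Matrix.inv_def, Matrix.smul_apply, smul_eq_mul, mul_comm, ← mul_assoc, Ring.mul_inverse_cancel _ hdet,
      one_mul]
  rw [h1, h2, adjugate_apply]
  refine det_eq_of_forall_row_eq_smul_add_const (fun i => if i = v then 0 else B i v) v (by simp) ?_
  intro i j
  by_cases hi : i = v
  · subst hi
    simp only [updateRow_self, cut, true_or, if_true, zero_mul, add_zero, Pi.single_apply, eq_comm]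
  · rw [updateRow_ne hi]
    by_cases hj : j = v
    · subst hj
      simp [cut, hi]
    · have hj' : ¬ v = j := fun h => hj h.symm
      simp [cut, hi, hj, hj']

/-- The diagonal entry of the inverse matrix in terms of the cut matrix. -/
theorem block_quad {B : Matrix V V R} {v : V} (hdet : IsUnit (cut v B).det) {r q : V → R}
    (hr : B *ᵥ r = ev v) (hq : cut v B *ᵥ q = fun x => if x = v then 0 else B x v) :
    r v * (B v v - ∑ x ∈ univ.erase v, B v x * q x) = 1 := by
  have key : cut v B *ᵥ r = cut v B *ᵥ (fun x => r v * (ev v x - q x)) := by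
    funext x
    have h2 : (cut v B *ᵥ fun x => r v * (ev v x - q x)) x =
        r v * ((cut v B *ᵥ ev v) x - (cut v B *ᵥ q) x) := by
      simp only [mulVec, dotProduct, mul_sum, ← sum_sub_distrib]
      exact sum_congr rfl fun z _ => by ring
    rw [h2, hq, cut_ev]
    by_cases hx : x = v
    · subst hx
      rw [cut_mulVec_self]
      simp
    · rw [cut_mulVec_ne v B _ hx, hr, ev_ne hx]
      simp only [if_neg hx]
      ring
  have h1 : ∀ x, r x = r v * (ev v x - q x) := congrFun (inj_of_det hdet key)
  have h2 := congrFun hr v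
  rw [ev_self] at h2
  have h3 : (B *ᵥ r) v = ∑ x ∈ univ.erase v, B v x * r x + B v v * r v := by
    simp only [mulVec, dotProduct]
    rw [← sum_erase_add univ _ (mem_univ v)]
  have h4 : ∑ x ∈ univ.erase v, B v x * r x = - (r v * ∑ x ∈ univ.erase v, B v x * q x) := by
    rw [mul_sum, ← sum_neg_distrib]
    refine sum_congr rfl fun x hx => ?_
    rw [h1 x, ev_ne (ne_of_mem_erase hx)]
    ring
  rw [h3, h4] at h2
  linear_combination h2

end Pool.Agent.Q266.WN
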