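import Pool.Agent.Q266.WN.Hyp

/-!
# The walk numbers of the neighbourhood of a vertex in the card
-/

set_option autoImplicit false

open Finset Matrix

namespace Pool.Agent.Q266.WN

variable {V : Type} [Fintype V] [DecidableEq V]

theorem sum_erase_zero (f : V → PowerSeries ℚ) (v : V) (h : f v = 0) :
    ∑ x ∈ univ.erase v, f x = ∑ x, f x := by
  rw [← sum_erase_add univ f (mem_univ v), h, add_zero]

/-- the generating function of the walks from `v` -/
theorem lin_one (A : Matrix V V ℚ) {v : V} (hv : A v v = 0) :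
    sol A (fun _ => 1) v = sol A (ev v) v *
      (1 + PowerSeries.X * ∑ x, PowerSeries.C (A v x) * sol (del v A) (fun _ => 1) x) := by
  have hr : B A *ᵥ sol A (ev v) = ev v := by
    rw [B_sol, ← ev_eq_C]
  have hu : B A *ᵥ sol A (fun _ => 1) = fun _ => 1 := by
    rw [B_sol]
    simp
  have hy : cut v (B A) *ᵥ sol (del v A) (fun _ => 1) = fun _ => 1 := by
    rw [cut_B, B_sol]
    simp
  have hd : IsUnit (cut v (B A)).det := by
    rw [cut_B]
    exact isUnit_det_B _
  rw [block_entry hd hu hr hy]
  congr 1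
  have h1 : ∑ x ∈ univ.erase v, B A v x * sol (del v A) (fun _ => 1) x =
      - (PowerSeries.X * ∑ x, PowerSeries.C (A v x) * sol (del v A) (fun _ => 1) x) := by
    rw [← sum_erase_zero _ v (by rw [hv]; simp), mul_sum, ← sum_neg_distrib]
    refine sum_congr rfl fun x hx => ?_
    rw [B_apply, if_neg (ne_of_mem_erase hx).symm]
    ring
  rw [h1]
  ring

/-- the generating function of the closed walks from `v` -/
theorem quad_one {A : Matrix V V ℚ} (hA : Aᵀ = A) {v : V} (hv : A v v = 0) :
    sol A (ev v) v * (1 - PowerSeries.X * (PowerSeries.X *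
      ∑ x, PowerSeries.C (A v x) * sol (del v A) (fun x => A v x) x)) = 1 := by
  have hr : B A *ᵥ sol A (ev v) = ev v := by
    rw [B_sol, ← ev_eq_C]
  have hd : IsUnit (cut v (B A)).det := by
    rw [cut_B]
    exact isUnit_det_B _
  have hsymm : ∀ x, A x v = A v x := by
    intro x
    conv_rhs => rw [← hA]
    rfl
  have hq : cut v (B A) *ᵥ (fun x => - PowerSeries.X * sol (del v A) (fun x => A v x) x) =
      fun x => if x = v then 0 else B A x v := by
    have h1 : cut v (B A) *ᵥ (fun x => - PowerSeries.X * sol (del v A) (fun x => A v x) x) =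
        fun x => - PowerSeries.X * (cut v (B A) *ᵥ sol (del v A) (fun x => A v x)) x := by
      funext x
      simp only [mulVec, dotProduct, mul_sum]
      exact sum_congr rfl fun y _ => by ring
    rw [h1, cut_B, B_sol]
    funext x
    by_cases hx : x = v
    · subst hx
      simp [hv]
    · rw [if_neg hx, B_apply, if_neg hx, hsymm]
      ring
  have h2 := block_quad hd hr hq
  have h3 : B A v v - ∑ x ∈ univ.erase v,
      B A v x * (- PowerSeries.X * sol (del v A) (fun x => A v x) x) =
      1 - PowerSeries.X * (PowerSeries.X *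
      ∑ x, PowerSeries.C (A v x) * sol (del v A) (fun x => A v x) x) := by
    rw [B_apply, if_pos rfl, hv, map_zero, mul_zero, sub_zero,
      ← sum_erase_zero (fun x => PowerSeries.C (A v x) * _) v (by rw [hv]; simp), mul_sum, mul_sum]
    congr 1
    refine sum_congr rfl fun x hx => ?_
    rw [B_apply, if_neg (ne_of_mem_erase hx).symm]
    ring
  rw [← h3]
  exact h2

variable {A A' : Matrix V V ℚ} {π : V → Equiv.Perm V}

theorem Hyp.lin (h : Hyp A A' π) (hn : 3 ≤ Fintype.card V) {v : V} (hv : A v v = 0)
    (hv' : A' v v = 0) (k : ℕ) :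
    ∑ x, A' v (π v x) * ((del v A ^ k) *ᵥ fun _ => 1) x =
      ∑ x, A v x * ((del v A ^ k) *ᵥ fun _ => 1) x := by
  have h1 := lin_one A hv
  have h2 := lin_one A' hv'
  rw [h.u_eq hn, h.r_eq hn, h1] at h2
  have hr : sol A (ev v) v ≠ 0 := by
    intro e
    have := congrArg PowerSeries.constantCoeff e
    rw [constCoeff_sol, ev_self, map_zero] at this
    exact one_ne_zero this
  have h3 := add_left_cancel (mul_left_cancel₀ hr h2)
  have h4 := mul_left_cancel₀ PowerSeries.X_ne_zero h3
  have h5 : ∑ x, PowerSeries.C (A' v x) * sol (del v A') (fun _ => 1) x =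
      ∑ x, PowerSeries.C (A' v (π v x)) * sol (del v A) (fun _ => 1) x := by
    rw [← Equiv.sum_comp (π v) (fun x => PowerSeries.C (A' v x) * sol (del v A') (fun _ => 1) x)]
    refine sum_congr rfl fun x _ => ?_
    rw [← sol_submatrix (del v A') (fun _ => 1) (π v) x, h.del_eq v]
  rw [h5] at h4
  have h6 := congrArg (PowerSeries.coeff k) h4
  rw [map_sum, map_sum] at h6
  simp only [PowerSeries.coeff_C_mul, coeff_sol] at h6
  exact h6.symm

theorem Hyp.quad (h : Hyp A A' π) (hn : 3 ≤ Fintype.card V) {v : V} (hv : A v v = 0)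
    (hv' : A' v v = 0) (k : ℕ) :
    ∑ x, A' v (π v x) * ((del v A ^ k) *ᵥ fun x => A' v (π v x)) x =
      ∑ x, A v x * ((del v A ^ k) *ᵥ fun x => A v x) x := by
  have h1 := quad_one h.symm hv
  have h2 := quad_one h.symm' hv'
  rw [h.r_eq hn] at h2
  have hr : sol A (ev v) v ≠ 0 := by
    intro e
    have := congrArg PowerSeries.constantCoeff e
    rw [constCoeff_sol, ev_self, map_zero] at this
    exact one_ne_zero this
  have h3 := sub_right_injective (mul_left_cancel₀ hr (h2.trans h1.symm))
  have h4 := mul_left_cancel₀ PowerSeries.X_ne_zero (mul_left_cancel₀ PowerSeries.X_ne_zero h3)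
  have h5 : ∑ x, PowerSeries.C (A' v x) * sol (del v A') (fun x => A' v x) x =
      ∑ x, PowerSeries.C (A' v (π v x)) * sol (del v A) (fun x => A' v (π v x)) x := by
    rw [← Equiv.sum_comp (π v) (fun x => PowerSeries.C (A' v x) *
      sol (del v A') (fun x => A' v x) x)]
    refine sum_congr rfl fun x _ => ?_
    rw [← sol_submatrix (del v A') (fun x => A' v x) (π v) x, h.del_eq v]
  rw [h5] at h4
  have h6 := congrArg (PowerSeries.coeff k) h4
  rw [map_sum, map_sum] at h6
  simp only [PowerSeries.coeff_C_mul, coeff_sol] at h6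
  exact h6

end Pool.Agent.Q266.WN
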