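import Pool.Agent.Q266.WN.Graph

/-!
# Degrees in the cards of hypomorphic graphs
-/

set_option autoImplicit false

open Finset Classical

namespace Pool.Agent.Q266.WN

open Pool.Agent.H234RC (Hypo NonIso)

variable {V : Type} [Fintype V]

/-- the degree -/
noncomputable def dg (G : SimpleGraph V) (x : V) : ℕ := (univ.filter fun y => G.Adj x y).card

theorem wk_one (G : SimpleGraph V) (x y : V) : wk G 1 x y = if G.Adj x y then 1 else 0 := by
  have h := wk_eq G 1 x y
  rw [pow_one, SimpleGraph.adjMatrix_apply] at h
  split_ifs with h1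
  · rw [if_pos h1] at h
    exact_mod_cast h
  · rw [if_neg h1] at h
    exact_mod_cast h

theorem dg_eq {G H : SimpleGraph V} {π : V → Equiv.Perm V} (h : Hypo G H π)
    (hn : 3 ≤ Fintype.card V) (v : V) : dg H v = dg G v := by
  have h1 := Hypo_walks h hn 1 v
  simp only [wk_one, sum_boole, Nat.cast_id] at h1
  exact h1

/-- the degree of a vertex different from `v` -/
theorem dg_del (G : SimpleGraph V) {v x : V} (hx : x ≠ v) :
    dg G x = dg (delV G v) x + if G.Adj v x then 1 else 0 := by
  have h1 : (univ.filter fun y => (delV G v).Adj x y) =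
      (univ.filter fun y => G.Adj x y).erase v := by
    ext y
    simp only [mem_filter, mem_univ, true_and, mem_erase, delV]
    tauto
  unfold dg
  rw [h1]
  split_ifs with h2
  · rw [card_erase_add_one]
    simp [h2.symm]
  · rw [erase_eq_of_notMem, add_zero]
    simp only [mem_filter, mem_univ, true_and]
    exact fun h => h2 h.symm

/-- the degree in `H` of a vertex different from `v` -/
theorem dg_del' {G H : SimpleGraph V} {π : V → Equiv.Perm V} (h : Hypo G H π) {v x : V}
    (hx : x ≠ v) : dg H (π v x) = dg (delV G v) x + if x ∈ nbr H π v then 1 else 0 := by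
  have hne : π v x ≠ v := fun e => hx ((π v).injective (e.trans (h.fix v).symm))
  rw [dg_del H hne]
  congr 1
  · unfold dg
    have h1 : (univ.filter fun y => (delV H v).Adj (π v x) y) =
        (univ.filter fun y => (delV G v).Adj x y).map (π v).toEmbedding := by
      ext y
      simp only [mem_filter, mem_univ, true_and, mem_map, Equiv.coe_toEmbedding, delV]
      constructor
      · rintro ⟨h1, h2, h3⟩
        refine ⟨(π v).symm y, ?_, by simp⟩
        have h4 : (π v).symm y ≠ v := by
          exact fun e => h3 (((Equiv.symm_apply_eq _).1 e).trans (h.fix v))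
        refine ⟨?_, hx, h4⟩
        rw [← h.adj v _ _ hx h4]
        simpa using h1
      · rintro ⟨z, ⟨h1, h2, h3⟩, rfl⟩
        refine ⟨(h.adj v _ _ h2 h3).2 h1, hne, ?_⟩
        exact fun e => h3 ((π v).injective (e.trans (h.fix v).symm))
    rw [h1, card_map]
  · simp only [nbr, mem_filter, mem_univ, true_and]

omit [Fintype V] in
theorem count_ind (S B : Finset V) (hB : B ⊆ S) (f : V → ℕ) (d : ℕ) :
    (S.filter fun x => f x + (if x ∈ B then 1 else 0) = d).card + (B.filter fun x => f x = d).card =
      (S.filter fun x => f x = d).card + (B.filter fun x => f x + 1 = d).card := by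
  have h1 : (S.filter fun x => f x + (if x ∈ B then 1 else 0) = d) =
      ((S \ B).filter fun x => f x = d) ∪ (B.filter fun x => f x + 1 = d) := by
    ext x
    simp only [mem_filter, mem_union, mem_sdiff]
    by_cases hx : x ∈ B
    · simp [hx, hB hx]
    · simp [hx]
  have h2 : (S.filter fun x => f x = d) =
      ((S \ B).filter fun x => f x = d) ∪ (B.filter fun x => f x = d) := by
    ext x
    simp only [mem_filter, mem_union, mem_sdiff]
    by_cases hx : x ∈ B
    · simp [hx, hB hx]
    · simp [hx]
  have h3 : Disjoint ((S \ B).filter fun x => f x = d) (B.filter fun x => f x + 1 = d) :=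
    disjoint_filter_filter sdiff_disjoint
  have h4 : Disjoint ((S \ B).filter fun x => f x = d) (B.filter fun x => f x = d) :=
    disjoint_filter_filter sdiff_disjoint
  rw [h1, h2, card_union_of_disjoint h3, card_union_of_disjoint h4]
  omega

omit [Fintype V] in
theorem dist_eq (S B C : Finset V) (hB : B ⊆ S) (hC : C ⊆ S) (f : V → ℕ)
    (h : ∀ d, (S.filter fun x => f x + (if x ∈ B then 1 else 0) = d).card =
      (S.filter fun x => f x + (if x ∈ C then 1 else 0) = d).card) (d : ℕ) :
    (B.filter fun x => f x = d).card = (C.filter fun x => f x = d).card := by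
  induction d with
  | zero =>
    have h1 := count_ind S B hB f 0
    have h2 := count_ind S C hC f 0
    have h3 := h 0
    have h4 : ∀ B : Finset V, (B.filter fun x => f x + 1 = 0).card = 0 := by
      intro B
      rw [card_eq_zero, filter_eq_empty_iff]
      intro x _
      omega
    rw [h4] at h1 h2
    omega
  | succ d ih =>
    have h1 := count_ind S B hB f (d + 1)
    have h2 := count_ind S C hC f (d + 1)
    have h3 := h (d + 1)
    have h4 : ∀ B : Finset V, (B.filter fun x => f x + 1 = d + 1) =
        (B.filter fun x => f x = d) := by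
      intro B
      exact filter_congr fun x _ => by omega
    rw [h4] at h1 h2
    omega

/-- the neighbourhoods of `v` in `G` and in `H`, seen in `G - v`, have the same degrees -/
theorem Hypo_deg {G H : SimpleGraph V} {π : V → Equiv.Perm V} (h : Hypo G H π)
    (hn : 3 ≤ Fintype.card V) (v : V) (d : ℕ) :
    ((nbr H π v).filter fun x => dg (delV G v) x = d).card =
      ((univ.filter fun x => G.Adj v x).filter fun x => dg (delV G v) x = d).card := by
  refine dist_eq (univ.filter fun x => x ≠ v) _ _ ?_ ?_ _ ?_ d
  · intro x hx
    simp only [nbr, mem_filter, mem_univ, true_and] at hx ⊢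
    intro e
    subst e
    rw [h.fix] at hx
    exact hx.ne rfl
  · intro x hx
    simp only [mem_filter, mem_univ, true_and] at hx ⊢
    exact hx.ne'
  · intro d
    have h1 : ((univ.filter fun x => x ≠ v).filter fun x =>
        dg (delV G v) x + (if x ∈ nbr H π v then 1 else 0) = d) =
        (univ.filter fun x => x ≠ v).filter fun x => dg H (π v x) = d := by
      refine filter_congr fun x hx => ?_
      rw [dg_del' h (mem_filter.1 hx).2]
    have h2 : ((univ.filter fun x => x ≠ v).filter fun x =>
        dg (delV G v) x + (if x ∈ univ.filter (fun x => G.Adj v x) then 1 else 0) = d) =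
        (univ.filter fun x => x ≠ v).filter fun x => dg G x = d := by
      refine filter_congr fun x hx => ?_
      rw [dg_del G (mem_filter.1 hx).2]
      simp only [mem_filter, mem_univ, true_and]
    rw [h1, h2]
    have h3 : ((univ.filter fun x => x ≠ v).filter fun x => dg G x = d) =
        ((univ.filter fun x => x ≠ v).filter fun x => dg H (π v x) = d).map
          (π v).toEmbedding := by
      ext z
      simp only [mem_filter, mem_univ, true_and, mem_map, Equiv.coe_toEmbedding]
      constructor
      · rintro ⟨h3, h4⟩
        refine ⟨(π v).symm z, ⟨?_, ?_⟩, by simp⟩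
        · exact fun e => h3 (((Equiv.symm_apply_eq _).1 e).trans (h.fix v))
        · rw [Equiv.apply_symm_apply, dg_eq h hn, h4]
      · rintro ⟨x, ⟨h3, h4⟩, rfl⟩
        refine ⟨fun e => h3 ((π v).injective (e.trans (h.fix v).symm)), ?_⟩
        rw [← h4, dg_eq h hn]
    rw [h3, card_map]

theorem nbr_ne {G H : SimpleGraph V} {π : V → Equiv.Perm V} (h : Hypo G H π) (v : V) :
    v ∉ nbr H π v := by
  simp only [nbr, mem_filter, mem_univ, true_and, h.fix]
  exact fun h => h.ne rfl

/-- an automorphism of `G - v` which maps one neighbourhood to the other gives an isomorphism -/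
theorem iso_of_aut {G H : SimpleGraph V} {π : V → Equiv.Perm V} (h : Hypo G H π) (v : V)
    (σ : Equiv.Perm V) (hv : σ v = v)
    (hσ : ∀ x y, (delV G v).Adj (σ x) (σ y) ↔ (delV G v).Adj x y)
    (hB : ∀ x, x ∈ nbr H π v ↔ G.Adj v (σ x)) : ¬ NonIso G H := by
  intro hN
  apply hN
  have hv' : σ.symm v = v := by rw [Equiv.symm_apply_eq, hv]
  have hne : ∀ {x : V}, x ≠ v → σ.symm x ≠ v := by
    intro x hx e
    apply hx
    rw [← hv, ← e]
    simp
  have h1 : ∀ x, H.Adj v (π v (σ.symm x)) ↔ G.Adj v x := by
    intro x
    have h2 := hB (σ.symm x)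
    simp only [nbr, mem_filter, mem_univ, true_and, Equiv.apply_symm_apply] at h2
    exact h2
  refine ⟨σ.symm.trans (π v), fun x y => ?_⟩
  simp only [Equiv.trans_apply]
  by_cases hx : x = v
  · subst hx
    rw [hv', h.fix]
    exact h1 y
  · by_cases hy : y = v
    · subst hy
      rw [hv', h.fix, SimpleGraph.adj_comm, h1 x, SimpleGraph.adj_comm]
    · rw [h.adj v _ _ (hne hx) (hne hy)]
      have h3 := hσ (σ.symm x) (σ.symm y)
      simp only [Equiv.apply_symm_apply, delV] at h3
      have h4 := hne hx
      have h5 := hne hy
      tauto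

end Pool.Agent.Q266.WN
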