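import Pool.Agent.Q266.WN.Card
import Pool.Agent.TH87.RVC.Main

/-!
# Walk numbers of hypomorphic graphs
-/

set_option autoImplicit false

open Finset Matrix Classical

namespace Pool.Agent.Q266.WN

open Pool.Agent.H234RC (Hypo NonIso)

variable {V : Type} [Fintype V]

/-- The number of walks of length `k` from `x` to `y`. -/
noncomputable def wk {V : Type} (G : SimpleGraph V) (k : ℕ) (x y : V) : ℕ :=
  Nat.card {p : G.Walk x y // p.length = k}

/-- The graph `G - v`, with `v` as an isolated vertex. -/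
def delV {V : Type} (G : SimpleGraph V) (v : V) : SimpleGraph V where
  Adj x y := G.Adj x y ∧ x ≠ v ∧ y ≠ v
  symm := ⟨fun _ _ h => ⟨h.1.symm, h.2.2, h.2.1⟩⟩
  loopless := ⟨fun _ h => h.1.ne rfl⟩

theorem wk_eq (G : SimpleGraph V) (k : ℕ) (x y : V) :
    (wk G k x y : ℚ) = (G.adjMatrix ℚ ^ k) x y := by
  rw [SimpleGraph.adjMatrix_pow_apply_eq_card_walk]
  unfold wk
  rw [Nat.card_eq_fintype_card]
  norm_cast

theorem row_sum (G : SimpleGraph V) (k : ℕ) (x : V) :
    ((∑ y, wk G k x y : ℕ) : ℚ) = ((G.adjMatrix ℚ ^ k) *ᵥ fun _ => 1) x := by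
  push_cast
  simp only [mulVec, dotProduct, mul_one, wk_eq]

omit [Fintype V] in
theorem adj_delV (G : SimpleGraph V) (v : V) :
    (delV G v).adjMatrix ℚ = del v (G.adjMatrix ℚ) := by
  refine Matrix.ext fun x y => ?_
  simp only [SimpleGraph.adjMatrix_apply, del, delV]
  by_cases hx : x = v
  · simp [hx]
  · by_cases hy : y = v
    · simp [hy]
    · simp [hx, hy]

omit [Fintype V] in
theorem hyp_of_hypo {G H : SimpleGraph V} {π : V → Equiv.Perm V} (h : Hypo G H π) :
    Hyp (G.adjMatrix ℚ) (H.adjMatrix ℚ) π where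
  symm := SimpleGraph.transpose_adjMatrix ..
  symm' := SimpleGraph.transpose_adjMatrix ..
  fix := h.fix
  eq := fun v x y hx hy => by
    simp only [SimpleGraph.adjMatrix_apply, h.adj v x y hx hy]

/-- the walk numbers at corresponding vertices -/
theorem Hypo_walks {G H : SimpleGraph V} {π : V → Equiv.Perm V} (h : Hypo G H π)
    (hn : 3 ≤ Fintype.card V) (k : ℕ) (v : V) : ∑ y, wk H k v y = ∑ y, wk G k v y := by
  have h1 := (hyp_of_hypo h).walks hn k v
  rw [← row_sum, ← row_sum] at h1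
  exact_mod_cast h1

/-- the neighbourhood of `v` in `H`, seen in `G - v` -/
noncomputable def nbr (H : SimpleGraph V) (π : V → Equiv.Perm V) (v : V) : Finset V :=
  univ.filter fun x => H.Adj v (π v x)

theorem sum_ind (P : V → Prop) (f : V → ℚ) :
    ∑ x, (if P x then (1 : ℚ) else 0) * f x = ∑ x ∈ univ.filter P, f x := by
  rw [sum_filter]
  exact sum_congr rfl fun x _ => by split_ifs <;> simp

theorem Hypo_lin {G H : SimpleGraph V} {π : V → Equiv.Perm V} (h : Hypo G H π)
    (hn : 3 ≤ Fintype.card V) (v : V) (k : ℕ) :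
    ∑ x ∈ nbr H π v, ∑ y, wk (delV G v) k x y =
      ∑ x ∈ univ.filter (fun x => G.Adj v x), ∑ y, wk (delV G v) k x y := by
  have h1 := (hyp_of_hypo h).lin hn (v := v) (by simp) (by simp) k
  rw [← adj_delV] at h1
  simp only [← row_sum, SimpleGraph.adjMatrix_apply] at h1
  rw [sum_ind (fun x => H.Adj v (π v x)), sum_ind (fun x => G.Adj v x)] at h1
  exact_mod_cast h1

theorem Hypo_quad {G H : SimpleGraph V} {π : V → Equiv.Perm V} (h : Hypo G H π)
    (hn : 3 ≤ Fintype.card V) (v : V) (k : ℕ) :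
    ∑ x ∈ nbr H π v, ∑ y ∈ nbr H π v, wk (delV G v) k x y =
      ∑ x ∈ univ.filter (fun x => G.Adj v x), ∑ y ∈ univ.filter (fun x => G.Adj v x),
        wk (delV G v) k x y := by
  have h1 := (hyp_of_hypo h).quad hn (v := v) (by simp) (by simp) k
  rw [← adj_delV] at h1
  have h2 : ∀ (P : V → Prop), (((delV G v).adjMatrix ℚ ^ k) *ᵥ
      fun x => if P x then (1 : ℚ) else 0) =
      fun x => ((∑ y ∈ univ.filter P, wk (delV G v) k x y : ℕ) : ℚ) := by
    intro P
    funext x
    push_cast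
    simp only [mulVec, dotProduct, wk_eq]
    rw [sum_filter]
    exact sum_congr rfl fun y _ => by split_ifs <;> simp
  simp only [SimpleGraph.adjMatrix_apply] at h1
  rw [h2 (fun x => H.Adj v (π v x)), h2 (fun x => G.Adj v x)] at h1
  rw [sum_ind (fun x => H.Adj v (π v x)), sum_ind (fun x => G.Adj v x)] at h1
  exact_mod_cast h1

end Pool.Agent.Q266.WN
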