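import Pool.Agent.Q266.WN.Series

/-!
# Hypomorphic symmetric matrices: the walk numbers at corresponding indices are equal
-/

set_option autoImplicit false

open Finset Matrix

namespace Pool.Agent.Q266.WN

variable {V : Type} [Fintype V] [DecidableEq V]

/-- Symmetric matrices with the same deck. -/
structure Hyp (A A' : Matrix V V ℚ) (π : V → Equiv.Perm V) : Prop where
  symm : Aᵀ = A
  symm' : A'ᵀ = A'
  fix : ∀ v, π v v = v
  eq : ∀ v x y, x ≠ v → y ≠ v → A' (π v x) (π v y) = A x y

variable {A A' : Matrix V V ℚ} {π : V → Equiv.Perm V}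

omit [Fintype V] [DecidableEq V] in
theorem Hyp.ne (h : Hyp A A' π) {v x : V} (hx : x ≠ v) : π v x ≠ v := by
  intro e
  exact hx ((π v).injective (e.trans (h.fix v).symm))

omit [Fintype V] in
theorem Hyp.del_eq (h : Hyp A A' π) (v : V) : (del v A').submatrix (π v) (π v) = del v A := by
  refine Matrix.ext fun x y => ?_
  simp only [submatrix_apply, del]
  by_cases hx : x = v
  · subst hx
    simp [h.fix]
  · by_cases hy : y = v
    · subst hy
      simp [h.fix]
    · rw [if_neg (by simp [h.ne hx, h.ne hy]), if_neg (by simp [hx, hy]), h.eq v x y hx hy]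

omit [Fintype V] in
theorem Hyp.deck (h : Hyp A A' π) (t : ℚ) :
    ∀ v, (del v (-(A' + t • J))).submatrix (π v) (π v) = del v (-(A + t • J)) := by
  intro v
  refine Matrix.ext fun x y => ?_
  simp only [submatrix_apply, del]
  by_cases hx : x = v
  · subst hx
    simp [h.fix]
  · by_cases hy : y = v
    · subst hy
      simp [h.fix]
    · rw [if_neg (by simp [h.ne hx, h.ne hy]), if_neg (by simp [hx, hy])]
      simp only [Matrix.neg_apply, Matrix.add_apply, Matrix.smul_apply, h.eq v x y hx hy]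
      rfl

theorem Hyp.det_eq (h : Hyp A A' π) (t : ℚ) : ∃ c : ℚ, (B (A' + t • J)).det =
    (B (A + t • J)).det + PowerSeries.C c * PowerSeries.X ^ Fintype.card V := by
  have h1 := Deck.P_eq (N := -(A + t • J)) (N' := -(A' + t • J)) (π := π) ⟨h.deck t⟩
  refine ⟨(P (-(A' + t • J))).coeff (Fintype.card V) - (P (-(A + t • J))).coeff (Fintype.card V), ?_⟩
  rw [det_B, det_B]
  conv_lhs => rw [h1]
  simp only [Polynomial.coe_add, Polynomial.coe_mul, Polynomial.coe_pow, Polynomial.coe_X,
    Polynomial.coe_C]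

theorem Hyp.S_del (h : Hyp A A' π) (v : V) : S (del v A') = S (del v A) := by
  rw [← h.del_eq v, S_submatrix]

theorem Hyp.det_del (h : Hyp A A' π) (v : V) : (B (del v A')).det = (B (del v A)).det := by
  rw [← h.del_eq v, det_B, det_B, ← P_submatrix _ (π v)]
  rfl

omit [Fintype V] in
theorem ev_eq_C (v : V) : (ev v : V → PowerSeries ℚ) = fun x => PowerSeries.C (ev v x) := by
  funext x
  unfold ev
  split_ifs <;> simp

/-- the three identities for one matrix -/
theorem one (hA : Aᵀ = A) (v : V) :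
    sol A (ev v) v * (B A).det = (B (del v A)).det ∧
    sol A (ev v) v * (S A - S (del v A) + 1) = sol A (fun _ => 1) v ^ 2 := by
  have hr : B A *ᵥ sol A (ev v) = ev v := by
    rw [B_sol, ← ev_eq_C]
  have hu : B A *ᵥ sol A (fun _ => 1) = fun _ => 1 := by
    rw [B_sol]
    simp
  have hy : cut v (B A) *ᵥ sol (del v A) (fun _ => 1) = fun _ => 1 := by
    rw [cut_B, B_sol]
    simp
  have hd : IsUnit (cut v (B A)).det := by
    rw [cut_B]
    exact isUnit_det_B _
  refine ⟨?_, ?_⟩
  · rw [block_det (isUnit_det_B A) hr, cut_B]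
  · exact block_sum (B_transpose hA) hd hu hr hy

theorem Hyp.main (h : Hyp A A' π) (hn : 3 ≤ Fintype.card V) :
    (B A').det = (B A).det ∧ S A' = S A := by
  set n := Fintype.card V with hndef
  obtain ⟨c, hc⟩ := h.det_eq 0
  obtain ⟨c1, hc1⟩ := h.det_eq 1
  rw [zero_smul, add_zero, add_zero] at hc
  rw [one_smul, det_B_J, det_B_J] at hc1
  rw [← hndef] at hc hc1
  set F := (B A).det with hF
  set F' := (B A').det with hF'
  have hX : (PowerSeries.X : PowerSeries ℚ) ≠ 0 := PowerSeries.X_ne_zero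
  have hXn : (PowerSeries.X : PowerSeries ℚ) ^ (n - 1) ≠ 0 := pow_ne_zero _ hX
  have hn1 : (PowerSeries.X : PowerSeries ℚ) ^ n =
      PowerSeries.X * PowerSeries.X ^ (n - 1) := by
    rw [← pow_succ']
    congr 1
    omega
  -- the difference of the sums
  have hS : F' * S A' - F * S A = PowerSeries.C (c - c1) * PowerSeries.X ^ (n - 1) := by
    apply mul_left_cancel₀ hX
    rw [map_sub, mul_left_comm, ← hn1]
    linear_combination hc - hc1
  -- the vertices
  set Φ : V → PowerSeries ℚ := fun v => (B (del v A)).det with hΦ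
  set g : V → PowerSeries ℚ := fun v => F * sol A (fun _ => 1) v with hg
  set g' : V → PowerSeries ℚ := fun v => F' * sol A' (fun _ => 1) v with hg'
  have hsq : ∀ v, g v ^ 2 = Φ v * (F * S A - F * (S (del v A) - 1)) := by
    intro v
    obtain ⟨h1, h2⟩ := one h.symm v
    simp only [hg, hΦ, hF]
    rw [mul_pow, ← h2, ← h1]
    ring
  have hsq' : ∀ v, g' v ^ 2 = Φ v * (F' * S A' - F' * (S (del v A) - 1)) := by
    intro v
    obtain ⟨h1, h2⟩ := one h.symm' v
    rw [h.S_del v] at h2
    rw [h.det_del v] at h1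
    simp only [hg', hΦ, hF']
    rw [mul_pow, ← h2, ← h1]
    ring
  have hgc : ∀ v, PowerSeries.constantCoeff (g v) = 1 := by
    intro v
    simp only [hg, map_mul, constCoeff_sol, mul_one, hF, constCoeff_det_B]
  have hgc' : ∀ v, PowerSeries.constantCoeff (g' v) = 1 := by
    intro v
    simp only [hg', map_mul, constCoeff_sol, mul_one, hF', constCoeff_det_B]
  have hsum : ∑ v, (g' v - g v) = PowerSeries.C (c - c1) * PowerSeries.X ^ (n - 1) := by
    rw [sum_sub_distrib, ← hS]
    simp only [hg, hg', ← mul_sum]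
    rfl
  -- division by the sums of the g
  have hinv : ∀ v, (g' v + g v) * (g' v + g v)⁻¹ = 1 := by
    intro v
    apply PowerSeries.mul_inv_cancel
    rw [map_add, hgc, hgc']
    norm_num
  have hinvc : ∀ v, PowerSeries.constantCoeff ((g' v + g v)⁻¹) = 1 / 2 := by
    intro v
    rw [PowerSeries.constantCoeff_inv, map_add, hgc, hgc']
    norm_num
  have hdiff : ∀ v, g' v - g v = PowerSeries.X ^ (n - 1) * (Φ v * (PowerSeries.C (c - c1) -
      PowerSeries.C c * (PowerSeries.X * (S (del v A) - 1))) * (g' v + g v)⁻¹) := by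
    intro v
    have h1 : (g' v - g v) * (g' v + g v) = PowerSeries.X ^ (n - 1) * (Φ v *
        (PowerSeries.C (c - c1) - PowerSeries.C c * (PowerSeries.X * (S (del v A) - 1)))) := by
      have h2 : (g' v - g v) * (g' v + g v) = g' v ^ 2 - g v ^ 2 := by ring
      rw [h2, hsq, hsq', hc]
      rw [hc] at hS
      rw [hn1] at hS ⊢
      linear_combination Φ v * hS
    calc g' v - g v = (g' v - g v) * ((g' v + g v) * (g' v + g v)⁻¹) := by rw [hinv, mul_one]
      _ = ((g' v - g v) * (g' v + g v)) * (g' v + g v)⁻¹ := by ring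
      _ = _ := by rw [h1]; ring
  have hmain : ∑ v, Φ v * (PowerSeries.C (c - c1) -
      PowerSeries.C c * (PowerSeries.X * (S (del v A) - 1))) * (g' v + g v)⁻¹ =
      PowerSeries.C (c - c1) := by
    apply mul_left_cancel₀ hXn
    rw [mul_sum, ← sum_congr rfl fun v _ => hdiff v, hsum, mul_comm]
  have hΦc : ∀ v, PowerSeries.constantCoeff (Φ v) = 1 := fun v => constCoeff_det_B _
  -- the first constant
  have hc0 : c - c1 = 0 := by
    have h1 := congrArg PowerSeries.constantCoeff hmain
    rw [map_sum] at h1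
    have h2 : ∀ v, PowerSeries.constantCoeff (Φ v * (PowerSeries.C (c - c1) -
        PowerSeries.C c * (PowerSeries.X * (S (del v A) - 1))) * (g' v + g v)⁻¹) =
        (c - c1) * (1 / 2) := by
      intro v
      rw [map_mul, map_mul, map_sub, map_mul, map_mul, hΦc, hinvc, PowerSeries.constantCoeff_X,
        PowerSeries.constantCoeff_C]
      ring
    rw [sum_congr rfl fun v _ => h2 v, sum_const, card_univ, ← hndef,
      PowerSeries.constantCoeff_C, nsmul_eq_mul] at h1
    have h3 : (3 : ℚ) ≤ n := by exact_mod_cast hn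
    have h4 : (c - c1) * ((n : ℚ) - 2) = 0 := by linarith
    rcases mul_eq_zero.1 h4 with h5 | h5
    · exact h5
    · linarith
  -- the second constant
  have hc00 : c = 0 := by
    rw [hc0, map_zero] at hmain
    have h1 : PowerSeries.X * ∑ v, (Φ v * (PowerSeries.C c * (S (del v A) - 1)) *
        (g' v + g v)⁻¹) = PowerSeries.X * 0 := by
      rw [mul_zero, mul_sum, ← neg_eq_zero, ← sum_neg_distrib, ← hmain]
      exact sum_congr rfl fun v _ => by ring
    have h2 := congrArg PowerSeries.constantCoeff (mul_left_cancel₀ hX h1)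
    rw [map_sum, map_zero] at h2
    have h3 : ∀ v, PowerSeries.constantCoeff (Φ v * (PowerSeries.C c * (S (del v A) - 1)) *
        (g' v + g v)⁻¹) = c * ((n : ℚ) - 1) * (1 / 2) := by
      intro v
      rw [map_mul, map_mul, map_mul, map_sub, map_one, hΦc, hinvc, constCoeff_S,
        PowerSeries.constantCoeff_C]
      ring
    rw [sum_congr rfl fun v _ => h3 v, sum_const, card_univ, ← hndef, nsmul_eq_mul] at h2
    have h4 : (3 : ℚ) ≤ n := by exact_mod_cast hn
    have h5 : c * ((n : ℚ) * ((n : ℚ) - 1)) = 0 := by linarith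
    rcases mul_eq_zero.1 h5 with h6 | h6
    · exact h6
    · rcases mul_eq_zero.1 h6 with h7 | h7 <;> linarith
  have hFF : F' = F := by
    rw [hc, hc00, map_zero, zero_mul, add_zero]
  refine ⟨hFF, ?_⟩
  rw [hc0, map_zero, zero_mul, sub_eq_zero, hFF] at hS
  exact (isUnit_det_B A).mul_left_cancel hS

theorem Hyp.r_eq (h : Hyp A A' π) (hn : 3 ≤ Fintype.card V) (v : V) :
    sol A' (ev v) v = sol A (ev v) v := by
  obtain ⟨h1, -⟩ := one h.symm v
  obtain ⟨h2, -⟩ := one h.symm' v
  obtain ⟨h3, -⟩ := h.main hn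
  rw [h3, h.det_del v, ← h1] at h2
  exact (isUnit_det_B A).mul_right_cancel h2

theorem Hyp.u_eq (h : Hyp A A' π) (hn : 3 ≤ Fintype.card V) (v : V) :
    sol A' (fun _ => 1) v = sol A (fun _ => 1) v := by
  obtain ⟨-, h1⟩ := one h.symm v
  obtain ⟨-, h2⟩ := one h.symm' v
  obtain ⟨-, h3⟩ := h.main hn
  rw [h3, h.S_del v, h.r_eq hn v, h1] at h2
  rcases sq_eq_sq_iff_eq_or_eq_neg.1 h2.symm with h4 | h4
  · exact h4
  · exfalso
    have h5 := congrArg PowerSeries.constantCoeff h4
    rw [map_neg, constCoeff_sol, constCoeff_sol] at h5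
    norm_num at h5

/-- The walk numbers. -/
theorem Hyp.walks (h : Hyp A A' π) (hn : 3 ≤ Fintype.card V) (k : ℕ) (v : V) :
    ((A' ^ k) *ᵥ fun _ => 1) v = ((A ^ k) *ᵥ fun _ => 1) v := by
  rw [← coeff_sol, ← coeff_sol, h.u_eq hn v]

/-- The numbers of closed walks. -/
theorem Hyp.closed (h : Hyp A A' π) (hn : 3 ≤ Fintype.card V) (k : ℕ) (v : V) :
    (A' ^ k) v v = (A ^ k) v v := by
  have h1 : ∀ (M : Matrix V V ℚ), (M ^ k) v v = PowerSeries.coeff k (sol M (ev v) v) := by
    intro M
    rw [coeff_sol]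
    simp [mulVec, dotProduct, ev]
  rw [h1, h1, h.r_eq hn v]

/-- The difference of the matrices annihilates the walk vectors. -/
theorem Hyp.diff (h : Hyp A A' π) (hn : 3 ≤ Fintype.card V) (k : ℕ) (v : V) :
    ∑ x, (A' v x - A v x) * ((A ^ k) *ᵥ fun _ => 1) x = 0 := by
  have h1 := h.walks hn (k + 1) v
  rw [pow_succ', pow_succ', ← mulVec_mulVec, ← mulVec_mulVec] at h1
  have h2 : ((A' ^ k) *ᵥ fun _ => (1 : ℚ)) = (A ^ k) *ᵥ fun _ => 1 := funext (h.walks hn k)
  rw [h2] at h1
  simp only [sub_mul, sum_sub_distrib]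
  exact sub_eq_zero.2 h1

end Pool.Agent.Q266.WN
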