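import Pool.Agent.Q266.WN.One

/-!
# Reconstruction from the walk numbers of one card
-/

set_option autoImplicit false

open Finset Classical Matrix

namespace Pool.Agent.Q266.WN

open Pool.Agent.H234RC (Hypo NonIso Reconstructible exists_hypo)

variable {V : Type} [Fintype V]

theorem both (G : SimpleGraph V)
    (key : ∀ (H : SimpleGraph V) (π : V → Equiv.Perm V), Hypo G H π → ¬ NonIso G H) :
    Reconstructible G ∧ Reconstructible Gᶜ := by
  constructor
  · by_contra hG
    obtain ⟨H, π, hH, hN⟩ := exists_hypo G hG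
    exact key H π hH hN
  · by_contra hG
    obtain ⟨H, π, hH, hN⟩ := exists_hypo Gᶜ hG
    obtain ⟨h1, h2⟩ := Pool.Agent.TH87.RVC.compl_hypo hH hN
    exact key _ _ h1 h2

/-- the numbers compared in the first part -/
structure Same (G : SimpleGraph V) (v : V) (B : Finset V) : Prop where
  lin : ∀ k, ∑ x ∈ B, ∑ y, wk (delV G v) k x y =
    ∑ x ∈ univ.filter (fun x => G.Adj v x), ∑ y, wk (delV G v) k x y
  quad : ∀ k, ∑ x ∈ B, ∑ y ∈ B, wk (delV G v) k x y =
    ∑ x ∈ univ.filter (fun x => G.Adj v x), ∑ y ∈ univ.filter (fun x => G.Adj v x),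
      wk (delV G v) k x y
  deg : ∀ d, (B.filter fun x => dg (delV G v) x = d).card =
    ((univ.filter fun x => G.Adj v x).filter fun x => dg (delV G v) x = d).card

theorem main1 (G : SimpleGraph V) (hn : 3 ≤ Fintype.card V) (v : V)
    (hB : ∀ B : Finset V, v ∉ B → Same G v B → ∃ σ : Equiv.Perm V, σ v = v ∧
      (∀ x y, (delV G v).Adj (σ x) (σ y) ↔ (delV G v).Adj x y) ∧
      ∀ x, x ∈ B ↔ G.Adj v (σ x)) : Reconstructible G ∧ Reconstructible Gᶜ := by
  refine both G fun H π h => ?_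
  obtain ⟨σ, h1, h2, h3⟩ := hB (nbr H π v) (nbr_ne h v)
    ⟨Hypo_lin h hn v, Hypo_quad h hn v, Hypo_deg h hn v⟩
  exact iso_of_aut h v σ h1 h2 h3

theorem main2 (G : SimpleGraph V) (hn : 3 ≤ Fintype.card V) (v : V)
    (hr : Fintype.card V ≤ Module.finrank ℚ (Submodule.span ℚ (Set.range (cw G v))) + 2)
    (hb : ∀ X Y : Finset V, ¬ Balanced G v X Y) : Reconstructible G ∧ Reconstructible Gᶜ := by
  refine both G fun H π h hN => ?_
  obtain ⟨X, Y, h1⟩ := one_main h hn hN v hr
  exact hb X Y h1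

end Pool.Agent.Q266.WN
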