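import Mathlib

/-!
# Vectors orthogonal to a sequence of vectors
-/

set_option autoImplicit false

open Finset Matrix

namespace Pool.Agent.Q266.WN

variable {ι : Type} [Fintype ι]

/-- The vectors orthogonal to all the vectors of a sequence. -/
def perp (w : ℕ → ι → ℚ) : Submodule ℚ (ι → ℚ) where
  carrier := {z | ∀ k, z ⬝ᵥ w k = 0}
  zero_mem' := fun k => zero_dotProduct _
  add_mem' := fun {a b} ha hb k => by rw [add_dotProduct, ha k, hb k, add_zero]
  smul_mem' := fun c z hz k => by rw [smul_dotProduct, hz k, smul_zero]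

theorem mem_perp {w : ℕ → ι → ℚ} {z : ι → ℚ} : z ∈ perp w ↔ ∀ k, z ⬝ᵥ w k = 0 := Iff.rfl

theorem perp_span {w : ℕ → ι → ℚ} {z : ι → ℚ} (hz : z ∈ perp w) {y : ι → ℚ}
    (hy : y ∈ Submodule.span ℚ (Set.range w)) : z ⬝ᵥ y = 0 := by
  induction hy using Submodule.span_induction with
  | mem x hx =>
    obtain ⟨k, rfl⟩ := hx
    exact hz k
  | zero => exact dotProduct_zero _
  | add x y _ _ hx hy => rw [dotProduct_add, hx, hy, add_zero]
  | smul c x _ hx => rw [dotProduct_smul, hx, smul_zero]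

theorem finrank_perp (w : ℕ → ι → ℚ) :
    Module.finrank ℚ (Submodule.span ℚ (Set.range w)) + Module.finrank ℚ (perp w) ≤
      Fintype.card ι := by
  have h : Disjoint (Submodule.span ℚ (Set.range w)) (perp w) := by
    rw [Submodule.disjoint_def]
    intro x hx hx'
    have h1 := perp_span hx' hx
    exact dotProduct_self_eq_zero.1 h1
  have h2 := Submodule.finrank_add_finrank_le_of_disjoint h
  rwa [Module.finrank_fintype_fun_eq_card] at h2

/-- a space of dimension at most one -/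
theorem line {U : Submodule ℚ (ι → ℚ)} (hU : Module.finrank ℚ U ≤ 1) {z y : ι → ℚ} (hz : z ∈ U)
    (hz0 : z ≠ 0) (hy : y ∈ U) : ∃ c : ℚ, y = c • z := by
  obtain ⟨u, hu⟩ := finrank_le_one_iff.1 hU
  obtain ⟨a, ha⟩ := hu ⟨z, hz⟩
  obtain ⟨b, hb⟩ := hu ⟨y, hy⟩
  have ha' : a • (u : ι → ℚ) = z := congrArg Subtype.val ha
  have hb' : b • (u : ι → ℚ) = y := congrArg Subtype.val hb
  have ha0 : a ≠ 0 := by
    rintro rfl
    exact hz0 (by rw [← ha', zero_smul])
  refine ⟨b * a⁻¹, ?_⟩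
  rw [← ha', ← hb', smul_smul, mul_assoc, inv_mul_cancel₀ ha0, mul_one]

end Pool.Agent.Q266.WN
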