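import Pool.Agent.Q266.WN.Block

/-!
# The polynomial `det (1 + X N)` and the cut matrices
-/

set_option autoImplicit false

open Finset Matrix

namespace Pool.Agent.Q266.WN

variable {V : Type} [Fintype V] [DecidableEq V]

/-- The row and the column `v` are replaced by zero. -/
def del (v : V) (N : Matrix V V ℚ) : Matrix V V ℚ := fun x y => if x = v ∨ y = v then 0 else N x y

/-- `det (1 + X N)` -/
noncomputable def P (N : Matrix V V ℚ) : Polynomial ℚ :=
  det (1 + (Polynomial.X : Polynomial ℚ) • N.map Polynomial.C)

theorem coeff_P (N : Matrix V V ℚ) (k : ℕ) : (P N).coeff k =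
    ∑ s ∈ univ.powersetCard k, (N.submatrix (Subtype.val : s → V) (Subtype.val : s → V)).det :=
  coeff_det_one_add_X_smul_eq_sum_minors N k

theorem coeff_P_zero (N : Matrix V V ℚ) : (P N).coeff 0 = 1 := by
  rw [coeff_P, powersetCard_zero, sum_singleton]
  exact det_isEmpty

theorem coeff_P_large (N : Matrix V V ℚ) {k : ℕ} (hk : Fintype.card V < k) : (P N).coeff k = 0 := by
  rw [coeff_P, powersetCard_eq_empty.2 (by rwa [card_univ]), sum_empty]

omit [Fintype V] in
theorem minor_del (v : V) (N : Matrix V V ℚ) (s : Finset V) :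
    ((del v N).submatrix (Subtype.val : s → V) (Subtype.val : s → V)).det =
      if v ∈ s then 0 else (N.submatrix (Subtype.val : s → V) (Subtype.val : s → V)).det := by
  split_ifs with h
  · exact det_eq_zero_of_row_eq_zero (⟨v, h⟩ : s) fun j => by simp [del]
  · congr 1
    ext i j
    have h1 : (i : V) ≠ v := fun e => h (e ▸ i.2)
    have h2 : (j : V) ≠ v := fun e => h (e ▸ j.2)
    simp [del, h1, h2]

/-- Kelly's lemma for the sums of the principal minors. -/
theorem kelly (N : Matrix V V ℚ) (k : ℕ) :
    ∑ v, (P (del v N)).coeff k = ((Fintype.card V : ℚ) - k) * (P N).coeff k := by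
  simp_rw [coeff_P, minor_del]
  rw [sum_comm, mul_sum]
  refine sum_congr rfl fun s hs => ?_
  rw [sum_ite, sum_const_zero, zero_add, sum_const, nsmul_eq_mul]
  congr 1
  have h1 := (mem_powersetCard.1 hs).2
  have h2 : (univ.filter fun x => ¬ x ∈ s) = univ \ s := by
    ext x
    simp
  rw [h2, card_sdiff_of_subset (subset_univ s), card_univ, h1,
    Nat.cast_sub (h1 ▸ card_le_univ s)]

theorem P_submatrix (N : Matrix V V ℚ) (σ : Equiv.Perm V) : P (N.submatrix σ σ) = P N := by
  unfold P
  rw [← det_submatrix_equiv_self σ (1 + (Polynomial.X : Polynomial ℚ) • N.map Polynomial.C)]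
  congr 1
  ext i j
  simp [Matrix.one_apply, σ.injective.eq_iff]

/-- The two matrices have, up to permutations, the same cut matrices. -/
structure Deck (N N' : Matrix V V ℚ) (π : V → Equiv.Perm V) : Prop where
  eq : ∀ v, (del v N').submatrix (π v) (π v) = del v N

theorem Deck.P_del {N N' : Matrix V V ℚ} {π : V → Equiv.Perm V} (h : Deck N N' π) (v : V) :
    P (del v N') = P (del v N) := by
  rw [← h.eq v, P_submatrix]

/-- The polynomials differ in the leading coefficient only. -/
theorem Deck.P_eq {N N' : Matrix V V ℚ} {π : V → Equiv.Perm V} (h : Deck N N' π) :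
    P N' = P N + Polynomial.C ((P N').coeff (Fintype.card V) - (P N).coeff (Fintype.card V)) *
      Polynomial.X ^ Fintype.card V := by
  ext k
  rw [Polynomial.coeff_add, Polynomial.coeff_C_mul, Polynomial.coeff_X_pow]
  rcases lt_trichotomy k (Fintype.card V) with hk | hk | hk
  · rw [if_neg (by omega), mul_zero, add_zero]
    have h1 := kelly N k
    have h2 := kelly N' k
    have h3 : ∑ v, (P (del v N')).coeff k = ∑ v, (P (del v N)).coeff k :=
      sum_congr rfl fun v _ => by rw [h.P_del v]
    rw [h1, h2] at h3
    have h4 : ((Fintype.card V : ℚ) - k) ≠ 0 := by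
      have : (k : ℚ) < Fintype.card V := by exact_mod_cast hk
      linarith
    exact mul_left_cancel₀ h4 h3
  · subst hk
    rw [if_pos rfl]
    ring
  · rw [if_neg (by omega), mul_zero, add_zero, coeff_P_large N hk, coeff_P_large N' hk]

end Pool.Agent.Q266.WN
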