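import Pool.Agent.Q266.WN.Perp

/-!
# Symmetric matrices of small rank with entries 0, 1, -1 and zero diagonal
-/

set_option autoImplicit false

open Finset Matrix

namespace Pool.Agent.Q266.WN

variable {V : Type} [Fintype V]

/-- four vectors in a space of dimension at most three -/
theorem dep4 {U : Submodule ℚ (V → ℚ)} (hU : Module.finrank ℚ U ≤ 3) {a b c d : V → ℚ}
    (ha : a ∈ U) (hb : b ∈ U) (hc : c ∈ U) (hd : d ∈ U) :
    ∃ g0 g1 g2 g3 : ℚ, (g0 ≠ 0 ∨ g1 ≠ 0 ∨ g2 ≠ 0 ∨ g3 ≠ 0) ∧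
      ∀ x, g0 * a x + g1 * b x + g2 * c x + g3 * d x = 0 := by
  by_contra hcon
  push Not at hcon
  have h1 : LinearIndependent ℚ (![⟨a, ha⟩, ⟨b, hb⟩, ⟨c, hc⟩, ⟨d, hd⟩] : Fin 4 → U) := by
    rw [Fintype.linearIndependent_iff]
    intro g hg
    rw [Fin.sum_univ_four] at hg
    have h2 : ∀ x, g 0 * a x + g 1 * b x + g 2 * c x + g 3 * d x = 0 := by
      intro x
      have h3 := congrFun (congrArg Subtype.val hg) x
      simpa using h3
    by_contra h3
    push Not at h3
    obtain ⟨i, hi⟩ := h3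
    have h4 : g 0 ≠ 0 ∨ g 1 ≠ 0 ∨ g 2 ≠ 0 ∨ g 3 ≠ 0 := by
      fin_cases i
      · exact Or.inl hi
      · exact Or.inr (Or.inl hi)
      · exact Or.inr (Or.inr (Or.inl hi))
      · exact Or.inr (Or.inr (Or.inr hi))
    obtain ⟨x, hx⟩ := hcon (g 0) (g 1) (g 2) (g 3) h4
    exact hx (h2 x)
  have h2 := h1.fintype_card_le_finrank
  rw [Fintype.card_fin] at h2
  omega

/-- pairwise orthogonal vectors in a space of dimension at most three -/
theorem orth4 {U : Submodule ℚ (V → ℚ)} (hU : Module.finrank ℚ U ≤ 3) {a b c d : V → ℚ}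
    (ha : a ∈ U) (hb : b ∈ U) (hc : c ∈ U) (hd : d ∈ U) (hab : a ⬝ᵥ b = 0) (hac : a ⬝ᵥ c = 0)
    (had : a ⬝ᵥ d = 0) (hbc : b ⬝ᵥ c = 0) (hbd : b ⬝ᵥ d = 0) (hcd : c ⬝ᵥ d = 0)
    (ha0 : a ≠ 0) (hb0 : b ≠ 0) (hc0 : c ≠ 0) : d = 0 := by
  by_contra hd0
  obtain ⟨g0, g1, g2, g3, hg, h⟩ := dep4 hU ha hb hc hd
  have h1 : g0 • a + g1 • b + g2 • c + g3 • d = 0 := by
    funext x
    simpa using h x
  have hpos : ∀ z : V → ℚ, z ≠ 0 → z ⬝ᵥ z ≠ 0 := fun z hz e => hz (dotProduct_self_eq_zero.1 e)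
  have key : ∀ z : V → ℚ, g0 * (z ⬝ᵥ a) + g1 * (z ⬝ᵥ b) + g2 * (z ⬝ᵥ c) + g3 * (z ⬝ᵥ d) = 0 := by
    intro z
    have h2 := congrArg (fun y => z ⬝ᵥ y) h1
    simpa only [dotProduct_add, dotProduct_smul, smul_eq_mul, dotProduct_zero] using h2
  have k0 := key a
  have k1 := key b
  have k2 := key c
  have k3 := key d
  rw [hab, hac, had] at k0
  rw [dotProduct_comm b a, hab, hbc, hbd] at k1
  rw [dotProduct_comm c a, dotProduct_comm c b, hac, hbc, hcd] at k2
  rw [dotProduct_comm d a, dotProduct_comm d b, dotProduct_comm d c, had, hbd, hcd] at k3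
  simp only [mul_zero, add_zero, zero_add] at k0 k1 k2 k3
  rcases hg with hg | hg | hg | hg
  · exact (mul_ne_zero hg (hpos a ha0)) k0
  · exact (mul_ne_zero hg (hpos b hb0)) k1
  · exact (mul_ne_zero hg (hpos c hc0)) k2
  · exact (mul_ne_zero hg (hpos d hd0)) k3

/-- the situation for the difference `D` and the sum `F` -/
structure Sys (D F : Matrix V V ℚ) (U : Submodule ℚ (V → ℚ)) : Prop where
  dim : Module.finrank ℚ U ≤ 3
  symD : ∀ x y, D x y = D y x
  symF : ∀ x y, F x y = F y x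
  diag : ∀ x, D x x = 0
  val : ∀ x y, D x y = 0 ∨ D x y = 1 ∨ D x y = -1
  one : ∀ x y, D x y ≠ 0 → F x y = 1
  row : ∀ x, D x ∈ U
  inv : ∀ z ∈ U, F *ᵥ z ∈ U
  sum : ∀ z ∈ U, ∑ x, z x = 0
  tr : 3 * (F * F * D).trace + (D * D * D).trace = 0

/-- the trace of `M M (v u^T)` -/
theorem tr_mm (M : Matrix V V ℚ) (hM : ∀ x y, M x y = M y x) (u v : V → ℚ) :
    ∑ x, ∑ y, (M * M) x y * (u y * v x) = (M *ᵥ v) ⬝ᵥ (M *ᵥ u) := by
  have h1 : ∀ x y, (M * M) x y = ∑ z, M z x * M z y := by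
    intro x y
    rw [mul_apply]
    exact sum_congr rfl fun z _ => by rw [hM x z]
  simp only [h1, dotProduct, mulVec, sum_mul, mul_sum]
  rw [sum_congr rfl fun x _ => sum_comm, sum_comm]
  refine sum_congr rfl fun z _ => ?_
  rw [sum_comm]
  refine sum_congr rfl fun x _ => sum_congr rfl fun y _ => ?_
  ring

theorem trace_three (M D : Matrix V V ℚ) (hM : ∀ x y, M x y = M y x) (α β γ : V → ℚ) (a b c : ℚ)
    (hD : ∀ x y, D x y = c * (α x * β y + β x * α y) + b * (α x * γ y + γ x * α y) +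
      a * (β x * γ y + γ x * β y)) :
    (M * M * D).trace = 2 * (c * ((M *ᵥ α) ⬝ᵥ (M *ᵥ β)) + b * ((M *ᵥ α) ⬝ᵥ (M *ᵥ γ)) +
      a * ((M *ᵥ β) ⬝ᵥ (M *ᵥ γ))) := by
  have h1 : (M * M * D).trace = c * (∑ x, ∑ y, (M * M) x y * (α y * β x)) +
      c * (∑ x, ∑ y, (M * M) x y * (β y * α x)) + b * (∑ x, ∑ y, (M * M) x y * (α y * γ x)) +
      b * (∑ x, ∑ y, (M * M) x y * (γ y * α x)) + a * (∑ x, ∑ y, (M * M) x y * (β y * γ x)) +
      a * (∑ x, ∑ y, (M * M) x y * (γ y * β x)) := by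
    simp only [Matrix.trace, Matrix.diag_apply, mul_apply (M := M * M), mul_sum,
      ← sum_add_distrib]
    refine sum_congr rfl fun x _ => sum_congr rfl fun y _ => ?_
    rw [hD]
    ring
  rw [h1]
  simp only [tr_mm M hM]
  rw [dotProduct_comm (M *ᵥ β) (M *ᵥ α), dotProduct_comm (M *ᵥ γ) (M *ᵥ α),
    dotProduct_comm (M *ᵥ γ) (M *ᵥ β)]
  ring

/-- the image of a vector under `F` vanishes where all entries of `F` on its support are one -/
theorem Sys.kill {D F : Matrix V V ℚ} {U : Submodule ℚ (V → ℚ)} (h : Sys D F U) {s t : V → ℚ}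
    (hs : s ∈ U) (hst : ∀ x y, t x ≠ 0 → s y ≠ 0 → D x y ≠ 0) : t ⬝ᵥ (F *ᵥ s) = 0 := by
  refine sum_eq_zero fun x _ => ?_
  by_cases hx : t x = 0
  · rw [hx, zero_mul]
  · have h1 : (F *ᵥ s) x = ∑ y, s y := by
      refine sum_congr rfl fun y _ => ?_
      by_cases hy : s y = 0
      · rw [hy, mul_zero]
      · show F x y * s y = s y
        rw [h.one x y (hst x y hx hy), one_mul]
    rw [h1, h.sum s hs, mul_zero]

theorem fsym {F : Matrix V V ℚ} (hF : ∀ x y, F x y = F y x) (s t : V → ℚ) :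
    t ⬝ᵥ (F *ᵥ s) = s ⬝ᵥ (F *ᵥ t) := by
  simp only [dotProduct, mulVec, mul_sum]
  rw [sum_comm]
  refine sum_congr rfl fun x _ => sum_congr rfl fun y _ => ?_
  rw [hF y x]
  ring

/-- the component of `F s` orthogonal to `s` -/
theorem proj {s : V → ℚ} (hs : s ≠ 0) (y : V → ℚ) :
    ∃ a : ℚ, s ⬝ᵥ (y - a • s) = 0 := by
  have hpos : s ⬝ᵥ s ≠ 0 := fun e => hs (dotProduct_self_eq_zero.1 e)
  refine ⟨(s ⬝ᵥ y) / (s ⬝ᵥ s), ?_⟩
  rw [dotProduct_sub, dotProduct_smul, smul_eq_mul, div_mul_cancel₀ _ hpos, sub_self]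

/-- the finite check -/
theorem check {a b c p q r α β γ : ℚ} (ha : a = 1 ∨ a = -1) (hb : b = 1 ∨ b = -1)
    (hc : c = 1 ∨ c = -1) (hp : p = 0 ∨ p = 1 ∨ p = -1) (hq : q = 0 ∨ q = 1 ∨ q = -1)
    (hr : r = 0 ∨ r = 1 ∨ r = -1) (h1 : p = β * c + γ * b) (h2 : q = α * c + γ * a)
    (h3 : r = α * b + β * a) (h0 : α * p + β * q + γ * r = 0) :
    2 * α = c * q + b * r - a * b * c * p ∧ 2 * β = c * p + a * r - a * b * c * q ∧
      2 * γ = b * p + a * q - a * b * c * r ∧ α * β = 0 ∧ α * γ = 0 ∧ β * γ = 0 := by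
  have e : 2 * α = c * q + b * r - a * b * c * p ∧ 2 * β = c * p + a * r - a * b * c * q ∧
      2 * γ = b * p + a * q - a * b * c * r := by
    rcases ha with rfl | rfl <;> rcases hb with rfl | rfl <;> rcases hc with rfl | rfl <;>
      exact ⟨by linarith, by linarith, by linarith⟩
  obtain ⟨e1, e2, e3⟩ := e
  refine ⟨e1, e2, e3, ?_⟩
  have hα : α = (c * q + b * r - a * b * c * p) / 2 := by linarith
  have hβ : β = (c * p + a * r - a * b * c * q) / 2 := by linarith
  have hγ : γ = (b * p + a * q - a * b * c * r) / 2 := by linarith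
  clear h1 h2 h3 e1 e2 e3
  subst hα hβ hγ
  rcases ha with rfl | rfl <;> rcases hb with rfl | rfl <;> rcases hc with rfl | rfl <;>
    rcases hp with rfl | rfl | rfl <;> rcases hq with rfl | rfl | rfl <;>
    rcases hr with rfl | rfl | rfl <;> (revert h0; norm_num)

variable {D F : Matrix V V ℚ} {U : Submodule ℚ (V → ℚ)}

/-- No triangles: the matrix has rank two. -/
theorem Sys.rank_two (h : Sys D F U) {i j : V} (hij : D i j ≠ 0)
    (hT : ∀ k, D i k * D j k = 0) (k m : V) :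
    D i j * D k m = D k j * D i m + D k i * D j m := by
  have hd2 : D i j * D i j = 1 := by
    rcases h.val i j with h1 | h1 | h1
    · exact absurd h1 hij
    · rw [h1]; norm_num
    · rw [h1]; norm_num
  set d := D i j with hd
  by_contra hcon
  -- the reduced rows
  have hred : ∀ k, (D k - (d * D k j) • D i - (d * D k i) • D j) ∈ U := fun k =>
    U.sub_mem (U.sub_mem (h.row k) (U.smul_mem _ (h.row i))) (U.smul_mem _ (h.row j))
  obtain ⟨g0, g1, g2, g3, hg, h1⟩ := dep4 h.dim (h.row i) (h.row j) (hred k) (hred m)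
  have hval : ∀ k x, (D k - (d * D k j) • D i - (d * D k i) • D j) x =
      D k x - d * D k j * D i x - d * D k i * D j x := by
    intro k x
    simp only [Pi.sub_apply, Pi.smul_apply, smul_eq_mul]
  simp only [hval] at h1
  have hji : D j i = d := (h.symD j i).trans hd.symm
  have hi : ∀ k, D k i - d * D k j * D i i - d * D k i * D j i = 0 := by
    intro k
    rw [h.diag, hji]
    linear_combination (- D k i) * hd2
  have hj : ∀ k, D k j - d * D k j * D i j - d * D k i * D j j = 0 := by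
    intro k
    rw [h.diag, ← hd]
    linear_combination (- D k j) * hd2
  have hTk : ∀ k, D k i * D k j = 0 := by
    intro k
    rw [h.symD k i, h.symD k j]
    exact hT k
  have hkk : ∀ k, D k k - d * D k j * D i k - d * D k i * D j k = 0 := by
    intro k
    rw [h.diag, h.symD i k, h.symD j k]
    linear_combination (-2 * d) * hTk k
  -- the entry
  set e := D k m - d * D k j * D i m - d * D k i * D j m with he
  have he0 : e ≠ 0 := by
    intro e0
    apply hcon
    have : d * e = 0 := by rw [e0, mul_zero]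
    rw [he] at this
    linear_combination this + (D k j * D i m + D k i * D j m) * hd2
  have hmk : D m k - d * D m j * D i k - d * D m i * D j k = e := by
    rw [he, h.symD m k, h.symD m j, h.symD m i, h.symD i k, h.symD j k]
    ring
  have k1 := h1 i
  rw [hi, hi, h.diag, hji] at k1
  have k2 := h1 j
  rw [hj, hj, h.diag, ← hd] at k2
  have g1z : g1 = 0 := by
    have : g1 * d = 0 := by linarith
    exact (mul_eq_zero.1 this).resolve_right hij
  have g0z : g0 = 0 := by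
    have : g0 * d = 0 := by linarith
    exact (mul_eq_zero.1 this).resolve_right hij
  have k3 := h1 m
  rw [hkk m, ← he, g1z, g0z] at k3
  have k4 := h1 k
  rw [hkk k, hmk, g1z, g0z] at k4
  have g2z : g2 = 0 := by
    have : g2 * e = 0 := by linarith
    exact (mul_eq_zero.1 this).resolve_right he0
  have g3z : g3 = 0 := by
    have : g3 * e = 0 := by linarith
    exact (mul_eq_zero.1 this).resolve_right he0
  rcases hg with hg | hg | hg | hg
  · exact hg g0z
  · exact hg g1z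
  · exact hg g2z
  · exact hg g3z

/-- A triangle: contradiction. -/
theorem Sys.no_triangle (h : Sys D F U) {i j k : V} (hij : D i j ≠ 0) (hik : D i k ≠ 0)
    (hjk : D j k ≠ 0) : False := by
  have pm : ∀ x y, D x y ≠ 0 → D x y = 1 ∨ D x y = -1 := fun x y hxy =>
    (h.val x y).resolve_left hxy
  set a := D j k with ha
  set b := D i k with hb
  set c := D i j with hc
  have ha1 : a = 1 ∨ a = -1 := pm _ _ hjk
  have hb1 : b = 1 ∨ b = -1 := pm _ _ hik
  have hc1 : c = 1 ∨ c = -1 := pm _ _ hij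
  have a2 : a * a = 1 := by rcases ha1 with h | h <;> rw [h] <;> norm_num
  have b2 : b * b = 1 := by rcases hb1 with h | h <;> rw [h] <;> norm_num
  have c2 : c * c = 1 := by rcases hc1 with h | h <;> rw [h] <;> norm_num
  have hji : D j i = c := h.symD j i
  have hki : D k i = b := h.symD k i
  have hkj : D k j = a := h.symD k j
  -- the coefficients
  have hco : ∀ x, ∃ α β γ : ℚ, ∀ y, D x y = α * D i y + β * D j y + γ * D k y := by
    intro x
    obtain ⟨g0, g1, g2, g3, hg, h1⟩ := dep4 h.dim (h.row i) (h.row j) (h.row k) (h.row x)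
    have hg3 : g3 ≠ 0 := by
      intro g3z
      have k1 := h1 i
      have k2 := h1 j
      have k3 := h1 k
      rw [h.diag, hji, hki, g3z] at k1
      rw [h.diag, ← hc, hkj, g3z] at k2
      rw [h.diag, ← hb, ← ha, g3z] at k3
      have z0 : g0 = 0 := by
        linear_combination (c / 2) * k2 + (b / 2) * k3 - (a * b * c / 2) * k1 -
          (g0 / 2) * c2 - (g0 / 2) * b2 + (g1 * a * b / 2) * c2 + (g2 * a * c / 2) * b2
      have z1 : g1 = 0 := by
        have h2 : g1 * c = 0 := by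
          rw [z0] at k2 k3
          have h3 : g2 * a = 0 := by linarith
          have h4 : g2 = 0 := (mul_eq_zero.1 h3).resolve_right hjk
          rw [h4] at k1
          linarith
        exact (mul_eq_zero.1 h2).resolve_right hij
      have z2 : g2 = 0 := by
        have h2 : g2 * b = 0 := by
          rw [z1] at k1
          linarith
        exact (mul_eq_zero.1 h2).resolve_right hik
      rcases hg with hg | hg | hg | hg
      · exact hg z0
      · exact hg z1
      · exact hg z2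
      · exact hg g3z
    refine ⟨-(g0 / g3), -(g1 / g3), -(g2 / g3), fun y => ?_⟩
    have h2 := h1 y
    field_simp
    linarith
  choose α β γ hαβγ using hco
  have hp : ∀ x, D x i = β x * c + γ x * b := by
    intro x
    rw [hαβγ x i, h.diag, hji, hki]
    ring
  have hq : ∀ x, D x j = α x * c + γ x * a := by
    intro x
    rw [hαβγ x j, h.diag, hkj, ← hc]
    ring
  have hr : ∀ x, D x k = α x * b + β x * a := by
    intro x
    rw [hαβγ x k, h.diag, ← hb, ← ha]
    ring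
  have h0 : ∀ x, α x * D x i + β x * D x j + γ x * D x k = 0 := by
    intro x
    have h1 := hαβγ x x
    rw [h.diag, h.symD i x, h.symD j x, h.symD k x] at h1
    exact h1.symm
  have hck := fun x => check ha1 hb1 hc1 (h.val x i) (h.val x j) (h.val x k) (hp x) (hq x) (hr x)
    (h0 x)
  have hDi : ∀ y, D i y = β y * c + γ y * b := fun y => (h.symD i y).trans (hp y)
  have hDj : ∀ y, D j y = α y * c + γ y * a := fun y => (h.symD j y).trans (hq y)
  have hDk : ∀ y, D k y = α y * b + β y * a := fun y => (h.symD k y).trans (hr y)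
  have hD : ∀ x y, D x y = c * (α x * β y + β x * α y) + b * (α x * γ y + γ x * α y) +
      a * (β x * γ y + γ x * β y) := by
    intro x y
    rw [hαβγ x y, hDi, hDj, hDk]
    ring
  -- the three vectors lie in `U`
  have hαU : α ∈ U := by
    have h1 : α = (1 / 2 : ℚ) • (c • D j + b • D k - (a * b * c) • D i) := by
      funext x
      have h2 := (hck x).1
      simp only [Pi.smul_apply, Pi.sub_apply, Pi.add_apply, smul_eq_mul]
      rw [h.symD j x, h.symD k x, h.symD i x]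
      linarith
    rw [h1]
    exact U.smul_mem _ (U.sub_mem (U.add_mem (U.smul_mem _ (h.row _)) (U.smul_mem _ (h.row _)))
      (U.smul_mem _ (h.row _)))
  have hβU : β ∈ U := by
    have h1 : β = (1 / 2 : ℚ) • (c • D i + a • D k - (a * b * c) • D j) := by
      funext x
      have h2 := (hck x).2.1
      simp only [Pi.smul_apply, Pi.sub_apply, Pi.add_apply, smul_eq_mul]
      rw [h.symD j x, h.symD k x, h.symD i x]
      linarith
    rw [h1]
    exact U.smul_mem _ (U.sub_mem (U.add_mem (U.smul_mem _ (h.row _)) (U.smul_mem _ (h.row _)))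
      (U.smul_mem _ (h.row _)))
  have hγU : γ ∈ U := by
    have h1 : γ = (1 / 2 : ℚ) • (b • D i + a • D j - (a * b * c) • D k) := by
      funext x
      have h2 := (hck x).2.2.1
      simp only [Pi.smul_apply, Pi.sub_apply, Pi.add_apply, smul_eq_mul]
      rw [h.symD j x, h.symD k x, h.symD i x]
      linarith
    rw [h1]
    exact U.smul_mem _ (U.sub_mem (U.add_mem (U.smul_mem _ (h.row _)) (U.smul_mem _ (h.row _)))
      (U.smul_mem _ (h.row _)))
  -- they do not vanish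
  have hα0 : α ≠ 0 := by
    intro e
    have h2 := (hck i).1
    rw [h.diag, ← hc, ← hb, congrFun e i] at h2
    simp only [Pi.zero_apply, mul_zero] at h2
    linarith
  have hβ0 : β ≠ 0 := by
    intro e
    have h2 := (hck j).2.1
    rw [h.diag, hji, ← ha, congrFun e j] at h2
    simp only [Pi.zero_apply, mul_zero] at h2
    linarith
  have hγ0 : γ ≠ 0 := by
    intro e
    have h2 := (hck k).2.2.1
    rw [h.diag, hki, hkj, congrFun e k] at h2
    simp only [Pi.zero_apply, mul_zero] at h2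
    linarith
  -- disjoint supports
  have oab : α ⬝ᵥ β = 0 := sum_eq_zero fun x _ => (hck x).2.2.2.1
  have oac : α ⬝ᵥ γ = 0 := sum_eq_zero fun x _ => (hck x).2.2.2.2.1
  have obc : β ⬝ᵥ γ = 0 := sum_eq_zero fun x _ => (hck x).2.2.2.2.2
  have kab : ∀ x y, β x ≠ 0 → α y ≠ 0 → D x y ≠ 0 := by
    intro x y hx hy
    have h1 : α x = 0 := (mul_eq_zero.1 (hck x).2.2.2.1).resolve_right hx
    have h2 : γ x = 0 := (mul_eq_zero.1 (hck x).2.2.2.2.2).resolve_left hx
    have h3 : γ y = 0 := (mul_eq_zero.1 (hck y).2.2.2.2.1).resolve_left hy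
    have h4 : D x y = c * (β x * α y) := by
      rw [hD, h1, h2, h3]
      ring
    rw [h4]
    exact mul_ne_zero hij (mul_ne_zero hx hy)
  have kac : ∀ x y, γ x ≠ 0 → α y ≠ 0 → D x y ≠ 0 := by
    intro x y hx hy
    have h1 : α x = 0 := (mul_eq_zero.1 (hck x).2.2.2.2.1).resolve_right hx
    have h2 : β x = 0 := (mul_eq_zero.1 (hck x).2.2.2.2.2).resolve_right hx
    have h3 : β y = 0 := (mul_eq_zero.1 (hck y).2.2.2.1).resolve_left hy
    have h4 : D x y = b * (γ x * α y) := by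
      rw [hD, h1, h2, h3]
      ring
    rw [h4]
    exact mul_ne_zero hik (mul_ne_zero hx hy)
  have kbc : ∀ x y, γ x ≠ 0 → β y ≠ 0 → D x y ≠ 0 := by
    intro x y hx hy
    have h1 : α x = 0 := (mul_eq_zero.1 (hck x).2.2.2.2.1).resolve_right hx
    have h2 : β x = 0 := (mul_eq_zero.1 (hck x).2.2.2.2.2).resolve_right hx
    have h3 : α y = 0 := (mul_eq_zero.1 (hck y).2.2.2.1).resolve_right hy
    have h4 : D x y = a * (γ x * β y) := by
      rw [hD, h1, h2, h3]
      ring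
    rw [h4]
    exact mul_ne_zero hjk (mul_ne_zero hx hy)
  have fab : β ⬝ᵥ (F *ᵥ α) = 0 := h.kill hαU kab
  have fac : γ ⬝ᵥ (F *ᵥ α) = 0 := h.kill hαU kac
  have fbc : γ ⬝ᵥ (F *ᵥ β) = 0 := h.kill hβU kbc
  have fba : α ⬝ᵥ (F *ᵥ β) = 0 := by rw [fsym h.symF, fab]
  -- eigenvectors
  have eig : ∀ {u v w : V → ℚ}, u ∈ U → v ∈ U → w ∈ U → u ≠ 0 → v ≠ 0 → w ≠ 0 → u ⬝ᵥ v = 0 →
      u ⬝ᵥ w = 0 → v ⬝ᵥ w = 0 → v ⬝ᵥ (F *ᵥ u) = 0 → w ⬝ᵥ (F *ᵥ u) = 0 →
      ∃ e : ℚ, F *ᵥ u = e • u := by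
    intro u v w hu hv hw hu0 hv0 hw0 huv huw hvw h1 h2
    obtain ⟨e, he⟩ := proj hu0 (F *ᵥ u)
    refine ⟨e, ?_⟩
    have h3 : F *ᵥ u - e • u = 0 := by
      refine orth4 h.dim hu hv hw (U.sub_mem (h.inv u hu) (U.smul_mem e hu)) huv huw he hvw
        ?_ ?_ hu0 hv0 hw0
      · rw [dotProduct_sub, h1, dotProduct_smul, dotProduct_comm v u, huv, smul_zero, sub_zero]
      · rw [dotProduct_sub, h2, dotProduct_smul, dotProduct_comm w u, huw, smul_zero, sub_zero]
    exact sub_eq_zero.1 h3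
  obtain ⟨e1, he1⟩ := eig hαU hβU hγU hα0 hβ0 hγ0 oab oac obc fab fac
  obtain ⟨e2, he2⟩ := eig hβU hαU hγU hβ0 hα0 hγ0 (by rw [dotProduct_comm]; exact oab) obc oac
    fba fbc
  -- the traces
  have htF : (F * F * D).trace = 0 := by
    rw [trace_three F D h.symF α β γ a b c hD, he1, he2]
    simp only [smul_dotProduct, dotProduct_smul, oab]
    rw [dotProduct_comm α (F *ᵥ γ), dotProduct_comm β (F *ᵥ γ)]
    have h1 : (F *ᵥ γ) ⬝ᵥ α = 0 := by
      rw [dotProduct_comm, fsym h.symF, fac]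
    have h2 : (F *ᵥ γ) ⬝ᵥ β = 0 := by
      rw [dotProduct_comm, fsym h.symF, fbc]
    rw [h1, h2]
    simp
  have hpos : ∀ z : V → ℚ, z ≠ 0 → z ⬝ᵥ z ≠ 0 := fun z hz e => hz (dotProduct_self_eq_zero.1 e)
  have hDm : ∀ z : V → ℚ, D *ᵥ z = (c * (z ⬝ᵥ β) + b * (z ⬝ᵥ γ)) • α +
      (c * (z ⬝ᵥ α) + a * (z ⬝ᵥ γ)) • β + (b * (z ⬝ᵥ α) + a * (z ⬝ᵥ β)) • γ := by
    intro z
    funext x
    simp only [mulVec, dotProduct, Pi.add_apply, Pi.smul_apply, smul_eq_mul, mul_sum, sum_mul,
      ← sum_add_distrib]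
    refine sum_congr rfl fun y _ => ?_
    rw [hD]
    ring
  have htD : (D * D * D).trace = 6 * (a * b * c) * ((α ⬝ᵥ α) * (β ⬝ᵥ β) * (γ ⬝ᵥ γ)) := by
    rw [trace_three D D h.symD α β γ a b c hD, hDm α, hDm β, hDm γ]
    simp only [dotProduct_comm β α, dotProduct_comm γ α, dotProduct_comm γ β, oab, oac, obc,
      mul_zero, zero_add, add_zero, zero_smul, smul_dotProduct, dotProduct_smul, add_dotProduct,
      dotProduct_add, smul_eq_mul]
    ring
  have htr := h.tr
  rw [htF, htD, mul_zero, zero_add] at htr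
  have hne : 6 * (a * b * c) * ((α ⬝ᵥ α) * (β ⬝ᵥ β) * (γ ⬝ᵥ γ)) ≠ 0 :=
    mul_ne_zero (mul_ne_zero (by norm_num) (mul_ne_zero (mul_ne_zero hjk hik) hij))
      (mul_ne_zero (mul_ne_zero (hpos α hα0) (hpos β hβ0)) (hpos γ hγ0))
  exact hne htr

/-- The structure of the difference. -/
theorem Sys.main (h : Sys D F U) (hD : D ≠ 0) : ∃ s t : V → ℚ,
    (∀ x, s x = 0 ∨ s x = 1 ∨ s x = -1) ∧ (∀ x, t x = 0 ∨ t x = 1 ∨ t x = -1) ∧
    (∀ x, s x * t x = 0) ∧ s ≠ 0 ∧ t ≠ 0 ∧ s ∈ U ∧ t ∈ U ∧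
    (∀ x y, D x y = s x * t y + t x * s y) ∧ ∃ a : ℚ, F *ᵥ s = a • s := by
  obtain ⟨i, j, hij⟩ : ∃ i j, D i j ≠ 0 := by
    by_contra hcon
    push Not at hcon
    exact hD (Matrix.ext hcon)
  have hT : ∀ k, D i k * D j k = 0 := by
    intro k
    by_contra h1
    exact h.no_triangle hij (left_ne_zero_of_mul h1) (right_ne_zero_of_mul h1)
  have hr := h.rank_two hij hT
  have hd1 : D i j = 1 ∨ D i j = -1 := (h.val i j).resolve_left hij
  have hji : D j i = D i j := h.symD j i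
  set d := D i j with hd
  have hd2 : d * d = 1 := by rcases hd1 with h | h <;> rw [h] <;> norm_num
  set s : V → ℚ := fun x => D j x with hs
  set t : V → ℚ := fun x => d * D i x with ht
  have hsU : s ∈ U := h.row j
  have htU : t ∈ U := U.smul_mem d (h.row i)
  have hst : ∀ x, s x * t x = 0 := by
    intro x
    simp only [hs, ht]
    linear_combination d * hT x
  have hDst : ∀ x y, D x y = s x * t y + t x * s y := by
    intro x y
    have h1 := hr x y
    rw [h.symD x j, h.symD x i] at h1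
    simp only [hs, ht]
    linear_combination d * h1 - D x y * hd2
  have hs0 : s ≠ 0 := by
    intro e
    have h1 := congrFun e i
    simp only [hs, Pi.zero_apply] at h1
    exact hij (hji.symm.trans h1)
  have ht0 : t ≠ 0 := by
    intro e
    have h1 := congrFun e j
    simp only [ht, Pi.zero_apply, ← hd] at h1
    rw [hd2] at h1
    exact one_ne_zero h1
  have hsv : ∀ x, s x = 0 ∨ s x = 1 ∨ s x = -1 := fun x => h.val j x
  have htv : ∀ x, t x = 0 ∨ t x = 1 ∨ t x = -1 := by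
    intro x
    simp only [ht]
    rcases hd1 with h1 | h1 <;> rcases h.val i x with h2 | h2 | h2 <;> rw [h1, h2] <;> norm_num
  have ost : s ⬝ᵥ t = 0 := sum_eq_zero fun x _ => hst x
  have k1 : t ⬝ᵥ (F *ᵥ s) = 0 := by
    refine h.kill hsU fun x y hx hy => ?_
    have h1 : s x = 0 := (mul_eq_zero.1 (hst x)).resolve_right hx
    rw [hDst, h1, zero_mul, zero_add]
    exact mul_ne_zero hx hy
  have k2 : s ⬝ᵥ (F *ᵥ t) = 0 := by rw [fsym h.symF, k1]
  obtain ⟨e1, he1⟩ := proj hs0 (F *ᵥ s)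
  obtain ⟨e2, he2⟩ := proj ht0 (F *ᵥ t)
  -- the traces
  have hD3 : ∀ x y, D x y = 1 * (s x * t y + t x * s y) + 0 * (s x * (fun _ => (0 : ℚ)) y +
      (fun _ => (0 : ℚ)) x * s y) + 0 * (t x * (fun _ => (0 : ℚ)) y +
      (fun _ => (0 : ℚ)) x * t y) := by
    intro x y
    rw [hDst]
    ring
  have htF := trace_three F D h.symF s t (fun _ => 0) 0 0 1 hD3
  have htD := trace_three D D h.symD s t (fun _ => 0) 0 0 1 hD3
  have hDs : D *ᵥ s = (s ⬝ᵥ s) • t := by
    funext x
    have h1 : (D *ᵥ s) x = s x * (s ⬝ᵥ t) + t x * (s ⬝ᵥ s) := by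
      simp only [mulVec, dotProduct, mul_sum, ← sum_add_distrib]
      refine sum_congr rfl fun y _ => ?_
      rw [hDst]
      ring
    rw [h1, ost]
    simp only [Pi.smul_apply, smul_eq_mul]
    ring
  have hDt : D *ᵥ t = (t ⬝ᵥ t) • s := by
    funext x
    have h1 : (D *ᵥ t) x = s x * (t ⬝ᵥ t) + t x * (s ⬝ᵥ t) := by
      simp only [mulVec, dotProduct, mul_sum, ← sum_add_distrib]
      refine sum_congr rfl fun y _ => ?_
      rw [hDst]
      ring
    rw [h1, ost]
    simp only [Pi.smul_apply, smul_eq_mul]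
    ring
  have htr := h.tr
  rw [htF, htD, hDs, hDt] at htr
  simp only [smul_dotProduct, dotProduct_smul, dotProduct_comm t s, ost, smul_zero, mul_zero,
    zero_mul, add_zero, one_mul] at htr
  have hFF : (F *ᵥ s) ⬝ᵥ (F *ᵥ t) = 0 := by linarith
  have hxy : (F *ᵥ s - e1 • s) ⬝ᵥ (F *ᵥ t - e2 • t) = 0 := by
    rw [sub_dotProduct, dotProduct_sub, dotProduct_sub, hFF, dotProduct_smul, smul_dotProduct,
      smul_dotProduct, dotProduct_smul, dotProduct_comm (F *ᵥ s) t, k1, k2, ost]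
    simp
  by_cases hx : F *ᵥ s - e1 • s = 0
  · exact ⟨s, t, hsv, htv, hst, hs0, ht0, hsU, htU, hDst, e1, sub_eq_zero.1 hx⟩
  · have hy : F *ᵥ t - e2 • t = 0 := by
      refine orth4 h.dim hsU htU (U.sub_mem (h.inv s hsU) (U.smul_mem e1 hsU))
        (U.sub_mem (h.inv t htU) (U.smul_mem e2 htU)) ost he1 ?_ ?_ he2 hxy hs0 ht0 hx
      · rw [dotProduct_sub, k2, dotProduct_smul, ost, smul_zero, sub_zero]
      · rw [dotProduct_sub, k1, dotProduct_smul, dotProduct_comm t s, ost, smul_zero, sub_zero]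
    refine ⟨t, s, htv, hsv, fun x => by rw [mul_comm]; exact hst x, ht0, hs0, htU, hsU,
      fun x y => by rw [hDst]; ring, e2, sub_eq_zero.1 hy⟩

end Pool.Agent.Q266.WN
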