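import Pool.Agent.Q266.WN.Poly

/-!
# The power series `(1 - X A)⁻¹ b`
-/

set_option autoImplicit false

open Finset Matrix

namespace Pool.Agent.Q266.WN

variable {V : Type} [Fintype V] [DecidableEq V]

/-- `1 - X A` -/
noncomputable def B (A : Matrix V V ℚ) : Matrix V V (PowerSeries ℚ) :=
  1 - (PowerSeries.X : PowerSeries ℚ) • A.map PowerSeries.C

omit [Fintype V] in
theorem B_apply (A : Matrix V V ℚ) (x y : V) :
    B A x y = (if x = y then 1 else 0) - PowerSeries.X * PowerSeries.C (A x y) := by
  simp [B, Matrix.one_apply]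

theorem det_B (A : Matrix V V ℚ) : (B A).det = ((P (-A) : Polynomial ℚ) : PowerSeries ℚ) := by
  unfold P
  rw [← Polynomial.coeToPowerSeries.ringHom_apply, RingHom.map_det]
  congr 1
  refine Matrix.ext fun x y => ?_
  rw [B_apply]
  by_cases h : x = y
  · subst h
    simp
    ring
  · simp [h]
    ring

theorem constCoeff_det_B (A : Matrix V V ℚ) : PowerSeries.constantCoeff (B A).det = 1 := by
  rw [det_B, ← PowerSeries.coeff_zero_eq_constantCoeff_apply, Polynomial.coeff_coe, coeff_P_zero]

theorem isUnit_det_B (A : Matrix V V ℚ) : IsUnit (B A).det := by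
  rw [PowerSeries.isUnit_iff_constantCoeff, constCoeff_det_B]
  exact isUnit_one

omit [Fintype V] in
theorem cut_B (v : V) (A : Matrix V V ℚ) : cut v (B A) = B (del v A) := by
  refine Matrix.ext fun x y => ?_
  rw [B_apply]
  by_cases h : x = v ∨ y = v
  · simp [cut, del, h]
  · simp [cut, del, h, B_apply]

omit [Fintype V] in
theorem B_transpose {A : Matrix V V ℚ} (hA : Aᵀ = A) : (B A)ᵀ = B A := by
  refine Matrix.ext fun x y => ?_
  rw [transpose_apply, B_apply, B_apply]
  have h1 : A y x = A x y := by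
    conv_rhs => rw [← hA]
    rfl
  rw [h1]
  simp only [eq_comm]

/-- `(1 - X A)⁻¹ b` -/
noncomputable def sol (A : Matrix V V ℚ) (b : V → ℚ) : V → PowerSeries ℚ :=
  (B A)⁻¹ *ᵥ fun x => PowerSeries.C (b x)

theorem B_sol (A : Matrix V V ℚ) (b : V → ℚ) : B A *ᵥ sol A b = fun x => PowerSeries.C (b x) := by
  unfold sol
  rw [mulVec_mulVec, mul_nonsing_inv _ (isUnit_det_B A), one_mulVec]

theorem B_mulVec (A : Matrix V V ℚ) (w : V → PowerSeries ℚ) (x : V) :
    (B A *ᵥ w) x = w x - PowerSeries.X * ∑ y, PowerSeries.C (A x y) * w y := by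
  simp only [mulVec, dotProduct, B_apply, sub_mul, sum_sub_distrib, mul_sum, mul_assoc]
  congr 1
  simp

/-- The coefficients of the power series. -/
theorem coeff_sol (A : Matrix V V ℚ) (b : V → ℚ) (k : ℕ) (x : V) :
    PowerSeries.coeff k (sol A b x) = ((A ^ k) *ᵥ b) x := by
  induction k generalizing x with
  | zero =>
    have h := congrFun (B_sol A b) x
    rw [B_mulVec] at h
    have h1 := congrArg PowerSeries.constantCoeff h
    rw [map_sub, map_mul, PowerSeries.constantCoeff_X, zero_mul, sub_zero,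
      PowerSeries.constantCoeff_C] at h1
    rw [PowerSeries.coeff_zero_eq_constantCoeff_apply, h1, pow_zero, one_mulVec]
  | succ k ih =>
    have h := congrFun (B_sol A b) x
    rw [B_mulVec] at h
    have h1 := congrArg (PowerSeries.coeff (k + 1)) h
    rw [map_sub, mul_comm, PowerSeries.coeff_succ_mul_X, PowerSeries.coeff_C,
      if_neg (Nat.succ_ne_zero k), sub_eq_zero, map_sum] at h1
    rw [h1, pow_succ', ← mulVec_mulVec]
    simp only [mulVec, dotProduct, PowerSeries.coeff_C_mul]
    refine sum_congr rfl fun y _ => ?_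
    rw [ih y]
    rfl

theorem constCoeff_sol (A : Matrix V V ℚ) (b : V → ℚ) (x : V) :
    PowerSeries.constantCoeff (sol A b x) = b x := by
  rw [← PowerSeries.coeff_zero_eq_constantCoeff_apply, coeff_sol, pow_zero, one_mulVec]

theorem sol_eq {A : Matrix V V ℚ} {b : V → ℚ} {w : V → PowerSeries ℚ}
    (h : B A *ᵥ w = fun x => PowerSeries.C (b x)) : w = sol A b :=
  inj_of_det (isUnit_det_B A) (h.trans (B_sol A b).symm)

theorem sol_submatrix (A : Matrix V V ℚ) (b : V → ℚ) (σ : Equiv.Perm V) (x : V) :
    sol (A.submatrix σ σ) (fun x => b (σ x)) x = sol A b (σ x) := by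
  have h : (fun x => sol A b (σ x)) = sol (A.submatrix σ σ) (fun x => b (σ x)) := by
    refine sol_eq ?_
    funext x
    rw [B_mulVec]
    have h1 := congrFun (B_sol A b) (σ x)
    rw [B_mulVec] at h1
    rw [← h1]
    congr 2
    rw [← Equiv.sum_comp σ (fun y => PowerSeries.C (A (σ x) y) * sol A b y)]
    rfl
  exact (congrFun h x).symm

/-- the sum of the entries of `(1 - X A)⁻¹` -/
noncomputable def S (A : Matrix V V ℚ) : PowerSeries ℚ := ∑ x, sol A (fun _ => 1) x

theorem constCoeff_S (A : Matrix V V ℚ) : PowerSeries.constantCoeff (S A) = Fintype.card V := by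
  unfold S
  rw [map_sum, sum_congr rfl fun x _ => constCoeff_sol A _ x, sum_const, card_univ, nsmul_eq_mul,
    mul_one]

theorem S_submatrix (A : Matrix V V ℚ) (σ : Equiv.Perm V) : S (A.submatrix σ σ) = S A := by
  unfold S
  rw [← Equiv.sum_comp σ (fun x => sol A (fun _ => 1) x)]
  exact sum_congr rfl fun x _ => sol_submatrix A (fun _ => 1) σ x

/-- the all-one matrix -/
def J : Matrix V V ℚ := fun _ _ => 1

theorem det_B_J (A : Matrix V V ℚ) : (B (A + J)).det = (B A).det * (1 - PowerSeries.X * S A) := by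
  have h1 : B (A + J) = B A + replicateCol Unit (fun _ : V => - (PowerSeries.X : PowerSeries ℚ)) *
      replicateRow Unit (fun _ : V => (1 : PowerSeries ℚ)) := by
    refine Matrix.ext fun x y => ?_
    rw [Matrix.add_apply, B_apply, B_apply, Matrix.mul_apply]
    simp [J]
    ring
  rw [h1, det_add_replicateCol_mul_replicateRow (isUnit_det_B A)]
  congr 1
  rw [det_unique]
  simp only [Matrix.add_apply, Matrix.one_apply_eq, Matrix.mul_assoc]
  rw [Matrix.mul_apply, sub_eq_add_neg]
  congr 1
  have h2 : ∀ x, ((B A)⁻¹ * replicateCol Unit (fun _ : V => - (PowerSeries.X : PowerSeries ℚ))) x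
      default = - PowerSeries.X * sol A (fun _ => 1) x := by
    intro x
    rw [Matrix.mul_apply]
    simp only [sol, mulVec, dotProduct, mul_sum, replicateCol_apply, map_one, mul_one]
    exact sum_congr rfl fun y _ => by ring
  rw [sum_congr rfl fun x _ => by rw [h2 x]]
  simp only [replicateRow_apply, one_mul, S, mul_sum, neg_mul, sum_neg_distrib]

end Pool.Agent.Q266.WN
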