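import Pool.Agent.Q266.WN.Main1
import Pool.Agent.Q266.WN.Rank3

/-!
# Graphs whose walk vectors span a space of codimension at most three
-/

set_option autoImplicit false

open Finset Classical Matrix

namespace Pool.Agent.Q266.WN

open Pool.Agent.H234RC (Hypo NonIso Reconstructible)

variable {V : Type} [Fintype V]

/-- The walk vectors. -/
noncomputable def wv (G : SimpleGraph V) (k : ℕ) (x : V) : ℚ := ((∑ y, wk G k x y : ℕ) : ℚ)

/-- A switching quadruple. -/
structure Quad (G : SimpleGraph V) (X Y Z W : Finset V) : Prop where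
  two : 2 ≤ X.card
  pos : 1 ≤ Z.card
  dXY : Disjoint X Y
  dZW : Disjoint Z W
  dXZ : Disjoint (X ∪ Y) (Z ∪ W)
  xz : ∀ x ∈ X, ∀ z ∈ Z, ¬ G.Adj x z
  xw : ∀ x ∈ X, ∀ w ∈ W, G.Adj x w
  yz : ∀ y ∈ Y, ∀ z ∈ Z, G.Adj y z
  yw : ∀ y ∈ Y, ∀ w ∈ W, ¬ G.Adj y w
  out : ∀ u, u ∉ X ∪ Y → u ∉ Z ∪ W →
    (X.filter fun x => G.Adj u x).card = (Y.filter fun y => G.Adj u y).card
  ins : ∃ a : ℤ,
    (∀ x ∈ X, ((X.filter fun u => G.Adj x u).card : ℤ) - (Y.filter fun u => G.Adj x u).card = a) ∧
    (∀ y ∈ Y, ((Y.filter fun u => G.Adj y u).card : ℤ) - (X.filter fun u => G.Adj y u).card = a)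
  walkXY : ∀ k, ∑ x ∈ X, ∑ u, wk G k x u = ∑ y ∈ Y, ∑ u, wk G k y u
  walkZW : ∀ k, ∑ z ∈ Z, ∑ u, wk G k z u = ∑ w ∈ W, ∑ u, wk G k w u
  degXY : ∀ d, (X.filter fun x => dg G x = d).card = (Y.filter fun x => dg G x = d).card
  degZW : ∀ d, (Z.filter fun x => dg G x = d).card = (W.filter fun x => dg G x = d).card

/-- The neighbourhoods of `v` in hypomorphic graphs have the same degrees. -/
theorem Hypo_nbdeg {G H : SimpleGraph V} {π : V → Equiv.Perm V} (h : Hypo G H π)
    (hn : 3 ≤ Fintype.card V) (v : V) (d : ℕ) :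
    ((univ.filter fun x => H.Adj v x).filter fun x => dg G x = d).card =
      ((univ.filter fun x => G.Adj v x).filter fun x => dg G x = d).card := by
  have hne : ∀ {x : V}, x ≠ v → π v x ≠ v := fun hx e =>
    hx ((π v).injective (e.trans (h.fix v).symm))
  have hG : ∀ x, G.Adj v x → dg G x = dg (delV G v) x + 1 := by
    intro x hx
    have h1 := dg_del G hx.ne'
    rwa [if_pos hx] at h1
  have hH : ∀ x, x ∈ nbr H π v → dg G (π v x) = dg (delV G v) x + 1 := by
    intro x hx
    have hxv : x ≠ v := fun e => nbr_ne h v (e ▸ hx)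
    have h1 := dg_del' h hxv
    rw [if_pos hx, dg_eq h hn] at h1
    exact h1
  have hmap : (univ.filter fun x => H.Adj v x) = (nbr H π v).map (π v).toEmbedding := by
    ext y
    simp only [mem_filter, mem_univ, true_and, mem_map, Equiv.coe_toEmbedding, nbr]
    constructor
    · intro hy
      exact ⟨(π v).symm y, by simpa using hy, by simp⟩
    · rintro ⟨x, hx, rfl⟩
      exact hx
  have h2 : ((univ.filter fun x => H.Adj v x).filter fun x => dg G x = d).card =
      ((nbr H π v).filter fun x => dg (delV G v) x + 1 = d).card := by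
    rw [hmap, filter_map, card_map]
    congr 1
    refine filter_congr fun x hx => ?_
    simp only [Function.comp_apply, Equiv.coe_toEmbedding]
    rw [hH x hx]
  have h3 : ((univ.filter fun x => G.Adj v x).filter fun x => dg G x = d).card =
      ((univ.filter fun x => G.Adj v x).filter fun x => dg (delV G v) x + 1 = d).card := by
    congr 1
    refine filter_congr fun x hx => ?_
    rw [hG x (mem_filter.1 hx).2]
  rw [h2, h3]
  cases d with
  | zero =>
    have h4 : ∀ S : Finset V, (S.filter fun x => dg (delV G v) x + 1 = 0) = ∅ := by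
      intro S
      rw [filter_eq_empty_iff]
      intro x _
      omega
    rw [h4, h4]
  | succ d =>
    have h4 := Hypo_deg h hn v d
    have h5 : ∀ S : Finset V, (S.filter fun x => dg (delV G v) x + 1 = d + 1) =
        S.filter fun x => dg (delV G v) x = d := by
      intro S
      exact filter_congr fun x _ => by omega
    rw [h5, h5, h4]

/-- the system of hypomorphic graphs -/
theorem sys {G H : SimpleGraph V} {π : V → Equiv.Perm V} (h : Hypo G H π)
    (hn : 3 ≤ Fintype.card V)
    (hr : Fintype.card V ≤ Module.finrank ℚ (Submodule.span ℚ (Set.range (wv G))) + 3) :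
    Sys (H.adjMatrix ℚ - G.adjMatrix ℚ) (H.adjMatrix ℚ + G.adjMatrix ℚ) (perp (wv G)) := by
  have hy := hyp_of_hypo h
  set A := G.adjMatrix ℚ with hA
  set A' := H.adjMatrix ℚ with hA'
  have hAs : ∀ x y, A x y = A y x := by
    intro x y
    simp only [hA, SimpleGraph.adjMatrix_apply, G.adj_comm]
  have hAs' : ∀ x y, A' x y = A' y x := by
    intro x y
    simp only [hA', SimpleGraph.adjMatrix_apply, H.adj_comm]
  have hw : ∀ k, wv G k = (A ^ k) *ᵥ fun _ => (1 : ℚ) := by
    intro k
    funext x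
    exact row_sum G k x
  have hw' : ∀ k, wv G k = (A' ^ k) *ᵥ fun _ => (1 : ℚ) := by
    intro k
    rw [hw]
    funext x
    exact (hy.walks hn k x).symm
  have hmul : ∀ (M : Matrix V V ℚ), (∀ x y, M x y = M y x) →
      (∀ k, wv G k = (M ^ k) *ᵥ fun _ => (1 : ℚ)) → ∀ z ∈ perp (wv G), M *ᵥ z ∈ perp (wv G) := by
    intro M hM hMw z hz k
    have hMt : Mᵀ = M := Matrix.ext fun x y => hM y x
    rw [hMw]
    refine perp_mul M hMt z (fun k => ?_) k
    rw [← hMw]
    exact hz k
  constructor
  · have h1 := finrank_perp (wv G)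
    omega
  · intro x y
    simp only [Matrix.sub_apply, hAs x y, hAs' x y]
  · intro x y
    simp only [Matrix.add_apply, hAs x y, hAs' x y]
  · intro x
    simp [hA, hA', Matrix.sub_apply, SimpleGraph.adjMatrix_apply]
  · intro x y
    simp only [hA, hA', Matrix.sub_apply, SimpleGraph.adjMatrix_apply]
    split_ifs <;> norm_num
  · intro x y hxy
    revert hxy
    simp only [hA, hA', Matrix.sub_apply, Matrix.add_apply, SimpleGraph.adjMatrix_apply]
    split_ifs <;> norm_num
  · intro x k
    have h1 := hy.diff hn k x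
    rw [hw]
    exact h1
  · intro z hz
    rw [Matrix.add_mulVec]
    exact Submodule.add_mem _ (hmul A' hAs' hw' z hz) (hmul A hAs hw z hz)
  · intro z hz
    have h1 := hz 0
    rw [hw, pow_zero, one_mulVec] at h1
    simpa [dotProduct] using h1
  · have h1 : (A' ^ 3).trace = (A ^ 3).trace := by
      simp only [Matrix.trace, Matrix.diag_apply]
      exact sum_congr rfl fun x _ => hy.closed hn 3 x
    have h2 : (4 : ℚ) • (A' ^ 3 - A ^ 3) = (A' + A) * (A' + A) * (A' - A) +
        (A' + A) * (A' - A) * (A' + A) + (A' - A) * (A' + A) * (A' + A) +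
        (A' - A) * (A' - A) * (A' - A) := by
      rw [ofNat_smul_eq_nsmul]
      noncomm_ring
    have h3 := congrArg Matrix.trace h2
    rw [Matrix.trace_smul, Matrix.trace_sub, h1, sub_self, smul_zero] at h3
    simp only [Matrix.trace_add] at h3
    rw [Matrix.trace_mul_comm ((A' + A) * (A' - A)) (A' + A),
      Matrix.mul_assoc (A' - A) (A' + A) (A' + A),
      Matrix.trace_mul_comm (A' - A) ((A' + A) * (A' + A)), ← Matrix.mul_assoc] at h3
    linarith

/-- the switched graph -/
def flip (G : SimpleGraph V) (P Q : Finset V) : SimpleGraph V where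
  Adj x y := (G.Adj x y ∧ ¬ ((x ∈ P ∧ y ∈ Q) ∨ (x ∈ Q ∧ y ∈ P))) ∨
    (¬ G.Adj x y ∧ x ≠ y ∧ ((x ∈ P ∧ y ∈ Q) ∨ (x ∈ Q ∧ y ∈ P)))
  symm := ⟨fun x y h => by
    rcases h with ⟨h1, h2⟩ | ⟨h1, h2, h3⟩
    · exact Or.inl ⟨h1.symm, fun h3 => h2 (by tauto)⟩
    · exact Or.inr ⟨fun h4 => h1 h4.symm, h2.symm, by tauto⟩⟩
  loopless := ⟨fun x h => by
    rcases h with ⟨h1, h2⟩ | ⟨h1, h2, h3⟩
    · exact h1.ne rfl
    · exact h2 rfl⟩

theorem switch_main {G H : SimpleGraph V} {π : V → Equiv.Perm V} (h : Hypo G H π)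
    (hn : 3 ≤ Fintype.card V)
    (hr : Fintype.card V ≤ Module.finrank ℚ (Submodule.span ℚ (Set.range (wv G))) + 3)
    (hN : NonIso G H) : ∃ X Y Z W : Finset V, Quad G X Y Z W ∧ H = flip G (X ∪ Y) (Z ∪ W) := by
  have hsys := sys h hn hr
  set D := H.adjMatrix ℚ - G.adjMatrix ℚ with hD
  set F := H.adjMatrix ℚ + G.adjMatrix ℚ with hF
  have hDval : ∀ x y, D x y = (if H.Adj x y then 1 else 0) - (if G.Adj x y then 1 else 0) := by
    intro x y
    simp only [hD, Matrix.sub_apply, SimpleGraph.adjMatrix_apply]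
  have hFval : ∀ x y, F x y = (if H.Adj x y then 1 else 0) + (if G.Adj x y then 1 else 0) := by
    intro x y
    simp only [hF, Matrix.add_apply, SimpleGraph.adjMatrix_apply]
  have hD0 : D ≠ 0 := by
    intro e
    apply hN
    refine ⟨1, fun x y => ?_⟩
    have h1 := congrFun (congrFun e x) y
    rw [hDval, Matrix.zero_apply] at h1
    show H.Adj x y ↔ G.Adj x y
    by_cases h2 : H.Adj x y <;> by_cases h3 : G.Adj x y <;> simp [h2, h3] at h1 ⊢
  obtain ⟨s, t, hs, ht, hst, hs0, ht0, hsU, htU, hDst, a, ha⟩ := hsys.main hD0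
  have hD1 : ∀ x y, D x y = 1 → H.Adj x y ∧ ¬ G.Adj x y := by
    intro x y h1
    rw [hDval] at h1
    by_cases h2 : H.Adj x y <;> by_cases h3 : G.Adj x y <;> simp [h2, h3] at h1 ⊢
    all_goals norm_num at h1
  have hD2 : ∀ x y, D x y = -1 → ¬ H.Adj x y ∧ G.Adj x y := by
    intro x y h1
    rw [hDval] at h1
    by_cases h2 : H.Adj x y <;> by_cases h3 : G.Adj x y <;> simp [h2, h3] at h1 ⊢
    all_goals norm_num at h1
  have hD3 : ∀ x y, D x y = 0 → (H.Adj x y ↔ G.Adj x y) := by
    intro x y h1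
    rw [hDval] at h1
    by_cases h2 : H.Adj x y <;> by_cases h3 : G.Adj x y <;> simp [h2, h3] at h1 ⊢
  set X := univ.filter (fun x => s x = 1) with hX
  set Y := univ.filter (fun x => s x = -1) with hY
  set Z := univ.filter (fun x => t x = 1) with hZ
  set W := univ.filter (fun x => t x = -1) with hW
  have mX : ∀ x, x ∈ X ↔ s x = 1 := fun x => by simp [hX]
  have mY : ∀ x, x ∈ Y ↔ s x = -1 := fun x => by simp [hY]
  have mZ : ∀ x, x ∈ Z ↔ t x = 1 := fun x => by simp [hZ]
  have mW : ∀ x, x ∈ W ↔ t x = -1 := fun x => by simp [hW]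
  have sum_s : ∀ f : V → ℚ, ∑ x, s x * f x = ∑ x ∈ X, f x - ∑ x ∈ Y, f x := by
    intro f
    rw [hX, hY, sum_filter, sum_filter, ← sum_sub_distrib]
    refine sum_congr rfl fun x _ => ?_
    rcases hs x with h1 | h1 | h1 <;> rw [h1] <;> norm_num
  have sum_t : ∀ f : V → ℚ, ∑ x, t x * f x = ∑ x ∈ Z, f x - ∑ x ∈ W, f x := by
    intro f
    rw [hZ, hW, sum_filter, sum_filter, ← sum_sub_distrib]
    refine sum_congr rfl fun x _ => ?_
    rcases ht x with h1 | h1 | h1 <;> rw [h1] <;> norm_num
  have hts : ∀ x, s x ≠ 0 → t x = 0 := fun x h1 => (mul_eq_zero.1 (hst x)).resolve_left h1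
  have hts' : ∀ x, t x ≠ 0 → s x = 0 := fun x h1 => (mul_eq_zero.1 (hst x)).resolve_right h1
  have tX : ∀ x ∈ X, t x = 0 := fun x h1 => hts x (by rw [(mX x).1 h1]; norm_num)
  have tY : ∀ x ∈ Y, t x = 0 := fun x h1 => hts x (by rw [(mY x).1 h1]; norm_num)
  have sZ : ∀ x ∈ Z, s x = 0 := fun x h1 => hts' x (by rw [(mZ x).1 h1]; norm_num)
  have sW : ∀ x ∈ W, s x = 0 := fun x h1 => hts' x (by rw [(mW x).1 h1]; norm_num)
  -- walk numbers
  have wXY : ∀ k, ∑ x ∈ X, ∑ u, wk G k x u = ∑ y ∈ Y, ∑ u, wk G k y u := by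
    intro k
    have h1 := hsU k
    rw [dotProduct, sum_s, sub_eq_zero] at h1
    simp only [wv] at h1
    exact_mod_cast h1
  have wZW : ∀ k, ∑ z ∈ Z, ∑ u, wk G k z u = ∑ w ∈ W, ∑ u, wk G k w u := by
    intro k
    have h1 := htU k
    rw [dotProduct, sum_t, sub_eq_zero] at h1
    simp only [wv] at h1
    exact_mod_cast h1
  have w0 : ∀ x : V, ∑ y, wk G 0 x y = 1 := by
    intro x
    have h3 := row_sum G 0 x
    rw [pow_zero, one_mulVec] at h3
    exact_mod_cast h3
  have cXY : X.card = Y.card := by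
    have h1 := wXY 0
    simpa only [w0, sum_const, smul_eq_mul, mul_one] using h1
  have cZW : Z.card = W.card := by
    have h1 := wZW 0
    simpa only [w0, sum_const, smul_eq_mul, mul_one] using h1
  have pX : 1 ≤ X.card := by
    obtain ⟨x, hx⟩ : ∃ x, s x ≠ 0 := by
      by_contra hcon
      push Not at hcon
      exact hs0 (funext hcon)
    rcases (hs x).resolve_left hx with h1 | h1
    · exact card_pos.2 ⟨x, (mX x).2 h1⟩
    · rw [cXY]
      exact card_pos.2 ⟨x, (mY x).2 h1⟩
  have pZ : 1 ≤ Z.card := by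
    obtain ⟨x, hx⟩ : ∃ x, t x ≠ 0 := by
      by_contra hcon
      push Not at hcon
      exact ht0 (funext hcon)
    rcases (ht x).resolve_left hx with h1 | h1
    · exact card_pos.2 ⟨x, (mZ x).2 h1⟩
    · rw [cZW]
      exact card_pos.2 ⟨x, (mW x).2 h1⟩
  -- adjacencies between the pairs
  have hxz : ∀ x ∈ X, ∀ z ∈ Z, H.Adj x z ∧ ¬ G.Adj x z := by
    intro x hx z hz
    refine hD1 x z ?_
    rw [hDst, (mX x).1 hx, (mZ z).1 hz, tX x hx]
    norm_num
  have hxw : ∀ x ∈ X, ∀ w ∈ W, ¬ H.Adj x w ∧ G.Adj x w := by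
    intro x hx z hz
    refine hD2 x z ?_
    rw [hDst, (mX x).1 hx, (mW z).1 hz, tX x hx]
    norm_num
  have hyz : ∀ y ∈ Y, ∀ z ∈ Z, ¬ H.Adj y z ∧ G.Adj y z := by
    intro x hx z hz
    refine hD2 x z ?_
    rw [hDst, (mY x).1 hx, (mZ z).1 hz, tY x hx]
    norm_num
  have hyw : ∀ y ∈ Y, ∀ w ∈ W, H.Adj y w ∧ ¬ G.Adj y w := by
    intro x hx z hz
    refine hD1 x z ?_
    rw [hDst, (mY x).1 hx, (mW z).1 hz, tY x hx]
    norm_num
  -- rows of `F`
  have hrow : ∀ u, t u = 0 → ((X.filter fun x => G.Adj u x).card : ℚ) -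
      (Y.filter fun x => G.Adj u x).card = a / 2 * s u := by
    intro u hu
    have h1 := congrFun ha u
    have h2 : (F *ᵥ s) u = ∑ x, s x * F u x := by
      simp only [mulVec, dotProduct]
      exact sum_congr rfl fun y _ => mul_comm _ _
    have h3 : ∀ S : Finset V, (∀ x ∈ S, t x = 0) →
        ∑ x ∈ S, F u x = 2 * ((S.filter fun x => G.Adj u x).card : ℚ) := by
      intro S hS
      rw [card_eq_sum_ones, sum_filter]
      push_cast
      rw [mul_sum]
      refine sum_congr rfl fun x hx => ?_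
      have h4 : D u x = 0 := by rw [hDst, hu, hS x hx]; ring
      have h5 := hD3 u x h4
      rw [hFval]
      simp only [h5]
      split_ifs <;> norm_num
    rw [h2, sum_s, h3 X tX, h3 Y tY, Pi.smul_apply, smul_eq_mul] at h1
    linarith
  -- degrees
  have hdif : ∀ (S T : Finset V) (d : ℕ), (S.filter fun y => dg G y = d).card =
      ((S \ T).filter fun y => dg G y = d).card + ((S ∩ T).filter fun y => dg G y = d).card := by
    intro S T d
    rw [← card_union_of_disjoint, ← filter_union, sdiff_union_inter]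
    exact disjoint_filter_filter (disjoint_sdiff_inter S T)
  have hdeg : ∀ (v : V) (S T : Finset V), (∀ x, x ∈ S ↔ H.Adj v x ∧ ¬ G.Adj v x) →
      (∀ x, x ∈ T ↔ G.Adj v x ∧ ¬ H.Adj v x) → ∀ d, (S.filter fun x => dg G x = d).card =
        (T.filter fun x => dg G x = d).card := by
    intro v S T hS hT d
    have h1 := Hypo_nbdeg h hn v d
    have h2 : (univ.filter fun x => H.Adj v x) \ (univ.filter fun x => G.Adj v x) = S := by
      ext x
      simp [hS]
    have h3 : (univ.filter fun x => G.Adj v x) \ (univ.filter fun x => H.Adj v x) = T := by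
      ext x
      simp [hT]
    rw [hdif _ (univ.filter fun x => G.Adj v x) d, h2,
      hdif (univ.filter fun x => G.Adj v x) (univ.filter fun x => H.Adj v x) d, h3,
      inter_comm] at h1
    omega
  have hmem : ∀ v x, (H.Adj v x ∧ ¬ G.Adj v x ↔ D v x = 1) ∧
      (G.Adj v x ∧ ¬ H.Adj v x ↔ D v x = -1) := by
    intro v x
    refine ⟨⟨fun h1 => ?_, fun h1 => hD1 v x h1⟩, ⟨fun h1 => ?_, fun h1 => (hD2 v x h1).symm⟩⟩
    · rw [hDval, if_pos h1.1, if_neg h1.2]; norm_num
    · rw [hDval, if_pos h1.1, if_neg h1.2]; norm_num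
  have degXY : ∀ d, (X.filter fun x => dg G x = d).card = (Y.filter fun x => dg G x = d).card := by
    obtain ⟨w, hw⟩ := card_pos.1 pZ
    intro d
    refine hdeg w X Y (fun x => ?_) (fun x => ?_) d
    · rw [(hmem w x).1, hDst, (mZ w).1 hw, sZ w hw, mX]
      constructor <;> intro h1 <;> linarith
    · rw [(hmem w x).2, hDst, (mZ w).1 hw, sZ w hw, mY]
      constructor <;> intro h1 <;> linarith
  have degZW : ∀ d, (Z.filter fun x => dg G x = d).card = (W.filter fun x => dg G x = d).card := by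
    obtain ⟨w, hw⟩ := card_pos.1 pX
    intro d
    refine hdeg w Z W (fun x => ?_) (fun x => ?_) d
    · rw [(hmem w x).1, hDst, (mX w).1 hw, tX w hw, mZ]
      constructor <;> intro h1 <;> linarith
    · rw [(hmem w x).2, hDst, (mX w).1 hw, tX w hw, mW]
      constructor <;> intro h1 <;> linarith
  have hsXY : ∀ x, x ∈ X ∪ Y ↔ s x ≠ 0 := by
    intro x
    rw [mem_union, mX, mY]
    rcases hs x with h1 | h1 | h1 <;> rw [h1] <;> norm_num
  have htZW : ∀ x, x ∈ Z ∪ W ↔ t x ≠ 0 := by
    intro x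
    rw [mem_union, mZ, mW]
    rcases ht x with h1 | h1 | h1 <;> rw [h1] <;> norm_num
  have hflip : H = flip G (X ∪ Y) (Z ∪ W) := by
    ext x y
    simp only [flip, hsXY, htZW]
    have h1 : (s x ≠ 0 ∧ t y ≠ 0 ∨ t x ≠ 0 ∧ s y ≠ 0) ↔ D x y ≠ 0 := by
      rw [hDst]
      constructor
      · rintro (⟨h1, h2⟩ | ⟨h1, h2⟩)
        · rw [hts x h1, zero_mul, add_zero]
          exact mul_ne_zero h1 h2
        · rw [hts' x h1, zero_mul, zero_add]
          exact mul_ne_zero h1 h2
      · intro h1
        by_contra hcon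
        push Not at hcon
        apply h1
        by_cases h2 : s x = 0
        · by_cases h3 : t x = 0
          · rw [h2, h3]; ring
          · rw [h2, hcon.2 h3]; ring
        · rw [hcon.1 h2, hts x h2]; ring
    rw [h1]
    rcases hsys.val x y with h2 | h2 | h2
    · have h3 := hD3 x y h2
      simp [h2, h3]
    · have h3 := hD1 x y h2
      simp [h2, h3.1, h3.2, h3.1.ne]
    · have h3 := hD2 x y h2
      simp [h2, h3.1, h3.2]
  by_cases htwo : 2 ≤ X.card
  · refine ⟨X, Y, Z, W, ⟨htwo, pZ, ?_, ?_, ?_, fun x hx z hz => (hxz x hx z hz).2,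
      fun x hx z hz => (hxw x hx z hz).2, fun x hx z hz => (hyz x hx z hz).2,
      fun x hx z hz => (hyw x hx z hz).2, ?_, ?_, wXY, wZW, degXY, degZW⟩, hflip⟩
    · rw [Finset.disjoint_left]
      intro x hx hy
      rw [mX] at hx
      rw [mY, hx] at hy
      norm_num at hy
    · rw [Finset.disjoint_left]
      intro x hx hy
      rw [mZ] at hx
      rw [mW, hx] at hy
      norm_num at hy
    · rw [Finset.disjoint_left]
      intro x hx hy
      rw [hsXY] at hx
      rw [htZW] at hy
      exact hy (hts x hx)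
    · intro u hu1 hu2
      rw [hsXY, not_not] at hu1
      rw [htZW, not_not] at hu2
      have h1 := hrow u hu2
      rw [hu1, mul_zero] at h1
      have h2 : ((X.filter fun x => G.Adj u x).card : ℚ) = (Y.filter fun y => G.Adj u y).card := by
        linarith
      exact_mod_cast h2
    · obtain ⟨x0, hx0⟩ := card_pos.1 pX
      refine ⟨((X.filter fun u => G.Adj x0 u).card : ℤ) - (Y.filter fun u => G.Adj x0 u).card,
        ?_, ?_⟩
      · intro x hx
        have h1 := hrow x (tX x hx)
        have h2 := hrow x0 (tX x0 hx0)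
        rw [(mX x).1 hx] at h1
        rw [(mX x0).1 hx0] at h2
        have h3 : (((X.filter fun u => G.Adj x u).card : ℤ) : ℚ) -
            ((Y.filter fun u => G.Adj x u).card : ℤ) =
            ((X.filter fun u => G.Adj x0 u).card : ℤ) - ((Y.filter fun u => G.Adj x0 u).card : ℤ) := by
          push_cast
          linarith
        exact_mod_cast h3
      · intro y hy
        have h1 := hrow y (tY y hy)
        have h2 := hrow x0 (tX x0 hx0)
        rw [(mY y).1 hy] at h1
        rw [(mX x0).1 hx0] at h2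
        have h3 : (((Y.filter fun u => G.Adj y u).card : ℤ) : ℚ) -
            ((X.filter fun u => G.Adj y u).card : ℤ) =
            ((X.filter fun u => G.Adj x0 u).card : ℤ) - ((Y.filter fun u => G.Adj x0 u).card : ℤ) := by
          push_cast
          linarith
        exact_mod_cast h3
  · exfalso
    have h1 : X.card = 1 := by omega
    have h2 : Y.card = 1 := by omega
    obtain ⟨p, hp⟩ := card_eq_one.1 h1
    obtain ⟨q, hq⟩ := card_eq_one.1 h2
    have hpX : p ∈ X := by rw [hp]; exact mem_singleton_self p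
    have hqY : q ∈ Y := by rw [hq]; exact mem_singleton_self q
    have hpq : p ≠ q := by
      rintro rfl
      rw [mX] at hpX
      rw [mY, hpX] at hqY
      norm_num at hqY
    have hsn : ∀ x, x ≠ p → x ≠ q → s x = 0 := by
      intro x h3 h4
      by_contra h5
      rw [← ne_eq, ← hsXY, mem_union, hp, hq, mem_singleton, mem_singleton] at h5
      tauto
    -- the key: `H.Adj q y ↔ G.Adj p y`
    have key1 : ∀ y, y ≠ p → y ≠ q → (H.Adj q y ↔ G.Adj p y) ∧ (H.Adj p y ↔ G.Adj q y) := by
      intro y hyp hyq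
      rcases ht y with h3 | h3 | h3
      · have h4 := hrow y h3
        rw [hsn y hyp hyq, mul_zero, hp, hq] at h4
        simp only [filter_singleton] at h4
        have h5 : G.Adj y p ↔ G.Adj y q := by
          by_cases h5 : G.Adj y p <;> by_cases h6 : G.Adj y q <;> simp [h5, h6] at h4 ⊢
        have h6 : H.Adj q y ↔ G.Adj q y := hD3 q y (by rw [hDst, h3, tY q hqY]; ring)
        have h7 : H.Adj p y ↔ G.Adj p y := hD3 p y (by rw [hDst, h3, tX p hpX]; ring)
        rw [h6, h7, G.adj_comm q y, G.adj_comm p y]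
        exact ⟨h5.symm, h5⟩
      · have hyZ : y ∈ Z := (mZ y).2 h3
        have h4 := hxz p hpX y hyZ
        have h5 := hyz q hqY y hyZ
        exact ⟨⟨fun h => absurd h h5.1, fun h => absurd h h4.2⟩,
          ⟨fun _ => h5.2, fun _ => h4.1⟩⟩
      · have hyW : y ∈ W := (mW y).2 h3
        have h4 := hxw p hpX y hyW
        have h5 := hyw q hqY y hyW
        exact ⟨⟨fun _ => h4.2, fun _ => h5.1⟩,
          ⟨fun h => absurd h h4.1, fun h => absurd h h5.2⟩⟩
    have key2 : ∀ x y, x ≠ p → x ≠ q → y ≠ p → y ≠ q → (H.Adj x y ↔ G.Adj x y) := by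
      intro x y h3 h4 h5 h6
      exact hD3 x y (by rw [hDst, hsn x h3 h4, hsn y h5 h6]; ring)
    have key3 : H.Adj q p ↔ G.Adj p q := by
      rw [H.adj_comm]
      exact hD3 p q (by rw [hDst, tX p hpX, tY q hqY]; ring)
    apply hN
    refine ⟨Equiv.swap p q, fun x y => ?_⟩
    by_cases hxp : x = p
    · subst hxp
      rw [Equiv.swap_apply_left]
      by_cases hyp : y = x
      · subst hyp
        rw [Equiv.swap_apply_left]
        simp
      · by_cases hyq : y = q
        · subst hyq
          rw [Equiv.swap_apply_right]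
          exact key3
        · rw [Equiv.swap_apply_of_ne_of_ne hyp hyq]
          exact (key1 y hyp hyq).1
    · by_cases hxq : x = q
      · subst hxq
        rw [Equiv.swap_apply_right]
        by_cases hyp : y = p
        · subst hyp
          rw [Equiv.swap_apply_left, H.adj_comm, key3, G.adj_comm]
        · by_cases hyq : y = x
          · subst hyq
            rw [Equiv.swap_apply_right]
            simp
          · rw [Equiv.swap_apply_of_ne_of_ne hyp hyq]
            exact (key1 y hyp hyq).2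
      · rw [Equiv.swap_apply_of_ne_of_ne hxp hxq]
        by_cases hyp : y = p
        · subst hyp
          rw [Equiv.swap_apply_left, H.adj_comm, (key1 x hxp hxq).1, G.adj_comm]
        · by_cases hyq : y = q
          · subst hyq
            rw [Equiv.swap_apply_right, H.adj_comm, (key1 x hxp hxq).2, G.adj_comm]
          · rw [Equiv.swap_apply_of_ne_of_ne hyp hyq]
            exact key2 x y hxp hxq hyp hyq

theorem main3 (G : SimpleGraph V) (hn : 3 ≤ Fintype.card V)
    (hr : Fintype.card V ≤ Module.finrank ℚ (Submodule.span ℚ (Set.range (wv G))) + 3)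
    (hq : ∀ X Y Z W : Finset V, Quad G X Y Z W → ∃ σ : Equiv.Perm V, ∀ x y,
      (flip G (X ∪ Y) (Z ∪ W)).Adj (σ x) (σ y) ↔ G.Adj x y) :
    Reconstructible G ∧ Reconstructible Gᶜ := by
  refine both G fun H π h hN => ?_
  obtain ⟨X, Y, Z, W, h1, h2⟩ := switch_main h hn hr hN
  rw [h2] at hN
  exact hN (hq X Y Z W h1)

end Pool.Agent.Q266.WN
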